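import Pool.Agent.Helper73.RFn.GoalsH

/-!
PACKET RFn-LIP (MP_c98eff_gt, general dimension, owner helper73): Lipschitz functions and the distance.
Adapted from `Pool.Agent.Helper55.RF.lip`.
-/

set_option autoImplicit false

open Finset Pool.Agent.Helper47.RFn Pool.Agent.Helper73.RFn MeasureTheory

namespace Pool.Agent.Helper32.RFn.LIP

variable {n : ℕ}

/-! ### Cauchy-Schwarz for a metric -/

lemma ip_pos {g : MF n} (hg : IsMetric g) (x : EE n) {v : Fin (n + 1) → ℝ} (hv : v ≠ 0) :
    0 < ip g x v v := by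
  have h := (hg.pos x).dotProduct_mulVec_pos hv
  have e : star v ⬝ᵥ (g x).mulVec v = ip g x v v := by
    unfold ip dotProduct Matrix.mulVec dotProduct
    apply sum_congr rfl
    intro i _
    rw [mul_sum]
    apply sum_congr rfl
    intro j _
    simp only [Pi.star_apply, star_trivial]
    ring
  rwa [e] at h

lemma ip_nonneg {g : MF n} (hg : IsMetric g) (x : EE n) (v : Fin (n + 1) → ℝ) : 0 ≤ ip g x v v := by
  by_cases hv : v = 0
  · rw [hv]; simp [ip]
  · exact (ip_pos hg x hv).le

lemma ip_symm {g : MF n} (hg : IsMetric g) (x : EE n) (u v : Fin (n + 1) → ℝ) : ip g x u v = ip g x v u := by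
  have hs : ∀ i j, g x i j = g x j i := by
    intro i j
    have := (hg.pos x).isHermitian.apply j i
    simpa using this
  unfold ip
  rw [sum_comm]
  apply sum_congr rfl
  intro i _
  apply sum_congr rfl
  intro j _
  rw [hs j i]; ring

lemma ip_cs {g : MF n} (hg : IsMetric g) (x : EE n) (u v : Fin (n + 1) → ℝ) :
    ip g x u v ^ 2 ≤ ip g x u u * ip g x v v := by
  have h1 := ip_nonneg hg x (fun i => ip g x v v * u i - ip g x u v * v i)
  have h2 : ip g x (fun i => ip g x v v * u i - ip g x u v * v i)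
      (fun i => ip g x v v * u i - ip g x u v * v i)
      = ip g x v v * (ip g x u u * ip g x v v - ip g x u v ^ 2) := by
    have e : ∀ a b : ℝ, ip g x (fun i => a * u i - b * v i) (fun i => a * u i - b * v i)
        = a ^ 2 * ip g x u u - a * b * ip g x u v - a * b * ip g x v u + b ^ 2 * ip g x v v := by
      intro a b
      unfold ip
      simp only [mul_sum, ← sum_sub_distrib, ← sum_add_distrib]
      exact sum_congr rfl fun i _ => sum_congr rfl fun j _ => by ring
    rw [e, ip_symm hg x v u]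
    ring
  rw [h2] at h1
  by_cases hv : v = 0
  · rw [hv]; simp [ip]
  · have := ip_pos hg x hv
    have h3 := (mul_nonneg_iff_of_pos_left this).mp h1
    linarith

/-- pairing of a covector with a vector -/
lemma pair_cs {g : MF n} (h6 : Goal_C6) (hg : IsMetric g) (x : EE n) (a v : Fin (n + 1) → ℝ) :
    (∑ i, v i * a i) ^ 2 ≤ (∑ i, ∑ j, (g x)⁻¹ i j * a i * a j) * ip g x v v := by
  obtain ⟨-, -, -, -, hmul, hsym⟩ := h6 n g hg
  set b : Fin (n + 1) → ℝ := fun i => ∑ j, (g x)⁻¹ i j * a j with hb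
  have hgb : ∀ i, ∑ j, g x i j * b j = a i := by
    intro i
    have h1 : ∑ j, g x i j * b j = ∑ k, (g x * (g x)⁻¹) i k * a k := by
      simp only [hb, Matrix.mul_apply, mul_sum, sum_mul]
      rw [sum_comm]
      apply sum_congr rfl
      intro k _
      apply sum_congr rfl
      intro j _
      ring
    rw [h1, hmul x]
    simp [Matrix.one_apply]
  have h1 : ip g x v b = ∑ i, v i * a i := by
    unfold ip
    apply sum_congr rfl
    intro i _
    rw [← hgb i, mul_sum]
    apply sum_congr rfl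
    intro j _
    ring
  have h2 : ip g x b b = ∑ i, ∑ j, (g x)⁻¹ i j * a i * a j := by
    have h3 : ip g x b b = ∑ i, b i * a i := by
      unfold ip
      apply sum_congr rfl
      intro i _
      rw [← hgb i, mul_sum]
      apply sum_congr rfl
      intro j _
      ring
    rw [h3]
    apply sum_congr rfl
    intro i _
    simp only [hb, sum_mul]
    apply sum_congr rfl
    intro j _
    ring
  have h3 := ip_cs hg x v b
  rw [h1, h2] at h3
  linarith

/-! ### Great circles -/

lemma ne_of_norm {x : EE n} (h : ‖x‖ = 1) : x ≠ 0 := by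
  intro h0; rw [h0, norm_zero] at h; exact zero_ne_one h

lemma exists_perp (hn : 1 ≤ n) (x : EE n) (hx : ‖x‖ = 1) : ∃ w : EE n, ‖w‖ = 1 ∧ inner ℝ x w = 0 := by
  haveI : Fact (Module.finrank ℝ (EE n) = n + 1) := ⟨by rw [finrank_euclideanSpace, Fintype.card_fin]⟩
  have h1 : Module.finrank ℝ (Submodule.span ℝ {x})ᗮ = n :=
    Submodule.finrank_orthogonal_span_singleton (ne_of_norm hx)
  have h2 : 0 < Module.finrank ℝ (Submodule.span ℝ {x})ᗮ := by omega
  rw [Module.finrank_pos_iff_exists_ne_zero] at h2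
  obtain ⟨⟨w, hw⟩, hw0⟩ := h2
  have hw1 : w ≠ 0 := fun h => hw0 (by ext1; exact h)
  rw [Submodule.mem_orthogonal_singleton_iff_inner_right] at hw
  refine ⟨‖w‖⁻¹ • w, ?_, ?_⟩
  · rw [norm_smul, norm_inv, norm_norm, inv_mul_cancel₀ (norm_ne_zero_iff.mpr hw1)]
  · rw [inner_smul_right, hw, mul_zero]

lemma exists_dir (hn : 1 ≤ n) {x y : EE n} (hx : ‖x‖ = 1) (hy : ‖y‖ = 1) :
    ∃ (w : EE n) (θ : ℝ), ‖w‖ = 1 ∧ inner ℝ x w = 0 ∧ y = Real.cos θ • x + Real.sin θ • w := by
  set a : ℝ := inner ℝ x y with ha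
  set z : EE n := y - a • x with hz
  have hxx : inner ℝ x x = (1 : ℝ) := by rw [real_inner_self_eq_norm_sq, hx, one_pow]
  have hyy : inner ℝ y y = (1 : ℝ) := by rw [real_inner_self_eq_norm_sq, hy, one_pow]
  have hxz : inner ℝ x z = (0 : ℝ) := by
    rw [hz, inner_sub_right, inner_smul_right, hxx, mul_one, ← ha, sub_self]
  have hzz : ‖z‖ ^ 2 = 1 - a ^ 2 := by
    rw [← real_inner_self_eq_norm_sq]
    nth_rewrite 1 [hz]
    rw [inner_sub_left, inner_smul_left, hxz, mul_zero, sub_zero, hz, inner_sub_right, inner_smul_right,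
      hyy, real_inner_comm x y, ← ha]
    ring
  have ha1 : a ^ 2 ≤ 1 := by
    have := sq_nonneg ‖z‖
    linarith
  have hcos : Real.cos (Real.arccos a) = a := Real.cos_arccos (by nlinarith) (by nlinarith)
  have hsin : Real.sin (Real.arccos a) = ‖z‖ := by
    rw [Real.sin_arccos, ← hzz, Real.sqrt_sq (norm_nonneg _)]
  have hy2 : y = a • x + z := by rw [hz]; abel
  by_cases h : z = 0
  · obtain ⟨w, hw1, hw2⟩ := exists_perp hn x hx
    refine ⟨w, Real.arccos a, hw1, hw2, ?_⟩
    rw [hcos, hsin, h, norm_zero, zero_smul]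
    rw [h] at hy2
    exact hy2
  · have hz0 : ‖z‖ ≠ 0 := norm_ne_zero_iff.mpr h
    refine ⟨‖z‖⁻¹ • z, Real.arccos a, ?_, ?_, ?_⟩
    · rw [norm_smul, norm_inv, norm_norm, inv_mul_cancel₀ hz0]
    · rw [inner_smul_right, hxz, mul_zero]
    · rw [hcos, hsin, smul_smul, mul_inv_cancel₀ hz0, one_smul]
      exact hy2

lemma exists_joins (hn : 1 ≤ n) {x y : EE n} (hx : ‖x‖ = 1) (hy : ‖y‖ = 1) : ∃ c, Joins c x y := by
  obtain ⟨w, θ, hw, hxw, hyw⟩ := exists_dir hn hx hy
  set c : ℝ → EE n := fun t => Real.cos (θ * t) • x + Real.sin (θ * t) • w with hc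
  refine ⟨c, ?_, ?_, ?_, ?_⟩
  · have hd : ∀ t, HasDerivAt c ((-(Real.sin (θ * t)) * θ : ℝ) • x
        + (Real.cos (θ * t) * θ : ℝ) • w) t := by
      intro t
      have h1 : HasDerivAt (fun t => θ * t) θ t := by
        simpa using (hasDerivAt_id t).const_mul θ
      have h2 : HasDerivAt (fun t => Real.cos (θ * t)) (-(Real.sin (θ * t)) * θ) t := h1.cos
      have h3 : HasDerivAt (fun t => Real.sin (θ * t)) (Real.cos (θ * t) * θ) t := h1.sin
      exact (h2.smul_const x).add (h3.smul_const w)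
    refine ⟨Real.toNNReal (2 * |θ|), ?_⟩
    apply lipschitzWith_of_nnnorm_deriv_le
    · exact fun t => (hd t).differentiableAt
    · intro t
      rw [(hd t).deriv, ← NNReal.coe_le_coe, coe_nnnorm, Real.coe_toNNReal _ (by positivity)]
      refine (norm_add_le _ _).trans ?_
      rw [norm_smul, norm_smul, hx, hw, mul_one, mul_one, Real.norm_eq_abs,
        Real.norm_eq_abs, abs_mul, abs_mul, abs_neg]
      have h1 := Real.abs_sin_le_one (θ * t)
      have h2 := Real.abs_cos_le_one (θ * t)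
      have h3 := abs_nonneg θ
      nlinarith
  · intro t
    have h1 : ‖c t‖ ^ 2 = 1 := by
      rw [← real_inner_self_eq_norm_sq, hc]
      simp only [inner_add_left, inner_add_right, inner_smul_left, inner_smul_right, hxw,
        real_inner_comm x w, real_inner_self_eq_norm_sq, hx, hw, RCLike.conj_to_real]
      have h2 := Real.sin_sq_add_cos_sq (θ * t)
      nlinarith
    have h0 := norm_nonneg (c t)
    nlinarith
  · rw [hc]; simp
  · rw [hc]
    simp only
    rw [mul_one, hyw]

/-! ### The speed is integrable -/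

lemma coord_le (v : EE n) (i : Fin (n + 1)) : |v i| ≤ ‖v‖ := by
  have := PiLp.norm_apply_le v i
  rwa [Real.norm_eq_abs] at this

lemma cont_comp {f : EE n → ℝ} (hf : Sm f) {c : ℝ → EE n} (hc : Continuous c) (hn : ∀ t, ‖c t‖ = 1) :
    Continuous (fun t => f (c t)) := by
  rw [continuous_iff_continuousAt]
  intro t
  have h1 : ContinuousAt f (c t) := hf.cd.continuousOn.continuousAt
    (isOpen_compl_singleton.mem_nhds (ne_of_norm (hn t)))
  exact ContinuousAt.comp (f := c) h1 hc.continuousAt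

lemma speed_integrable {g : MF n} (hg : IsMetric g) {c : ℝ → EE n} {K : NNReal} (hK : LipschitzWith K c)
    (hn : ∀ t, ‖c t‖ = 1) : IntervalIntegrable (speed g c) volume 0 1 := by
  have hcc : Continuous c := hK.continuous
  have hgc : ∀ i j, Continuous (fun t => g (c t) i j) := fun i j => cont_comp (hg.sm i j) hcc hn
  have hgb : ∀ i j, ∃ M : ℝ, 0 ≤ M ∧ ∀ t ∈ Set.Icc (0:ℝ) 1, |g (c t) i j| ≤ M := by
    intro i j
    obtain ⟨M, hM⟩ := isCompact_Icc.exists_bound_of_continuousOn (s := Set.Icc (0:ℝ) 1)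
      (hgc i j).continuousOn
    exact ⟨|M|, abs_nonneg _, fun t ht => (Real.norm_eq_abs _ ▸ hM t ht).trans (le_abs_self _)⟩
  choose M hM0 hM using hgb
  have hdm : Measurable (deriv c) := measurable_deriv c
  have hfr : ∀ i, Measurable (fun t => deriv c t i) := by
    intro i
    have h1 : Continuous (fun p : EE n => p i) := by fun_prop
    exact h1.measurable.comp hdm
  have hsm : Measurable (speed g c) := by
    unfold speed ip
    apply Measurable.sqrt
    refine Finset.measurable_sum _ fun i _ => Finset.measurable_sum _ fun j _ => ?_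
    exact (((hgc i j).measurable.mul (hfr i)).mul (hfr j))
  have hdb : ∀ t i, |deriv c t i| ≤ K := fun t i =>
    (coord_le _ i).trans (norm_deriv_le_of_lipschitz hK)
  set B : ℝ := ∑ i, ∑ j, M i j * K * K with hB
  have hbd : ∀ t ∈ Set.Icc (0:ℝ) 1, ‖speed g c t‖ ≤ Real.sqrt B := by
    intro t ht
    unfold speed
    rw [Real.norm_eq_abs, abs_of_nonneg (Real.sqrt_nonneg _)]
    apply Real.sqrt_le_sqrt
    refine (le_abs_self _).trans ?_
    unfold ip
    refine (Finset.abs_sum_le_sum_abs _ _).trans (sum_le_sum fun i _ => ?_)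
    refine (Finset.abs_sum_le_sum_abs _ _).trans (sum_le_sum fun j _ => ?_)
    rw [abs_mul, abs_mul]
    apply mul_le_mul _ (hdb t j) (abs_nonneg _) (mul_nonneg (hM0 i j) K.2)
    exact mul_le_mul (hM i j t ht) (hdb t i) (abs_nonneg _) (hM0 i j)
  rw [intervalIntegrable_iff_integrableOn_Ioc_of_le zero_le_one]
  apply Measure.integrableOn_of_bounded (M := Real.sqrt B)
  · simp
  · exact hsm.aestronglyMeasurable
  · rw [ae_restrict_iff' measurableSet_Ioc]
    exact Filter.Eventually.of_forall fun t ht => hbd t ⟨ht.1.le, ht.2⟩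

/-! ### The main inequality along a curve -/

lemma lip_curve (h6 : Goal_C6) (h7 : Goal_C7) {g : MF n} {u : EE n → ℝ} {L : ℝ} (hg : IsMetric g)
    (hu : Sm u) (hL : 0 ≤ L)
    (hgg : ∀ x, x ≠ 0 → ∑ i, ∑ j, (g x)⁻¹ i j * ed i u x * ed j u x ≤ L ^ 2) {x y : EE n} {c : ℝ → EE n}
    (hc : Joins c x y) : |u x - u y| ≤ L * glen g c := by
  obtain ⟨⟨K, hK⟩, hn, h0, h1⟩ := hc
  have hcc : Continuous c := hK.continuous
  set φ : ℝ → ℝ := fun t => u (c t) with hφ
  have hloc : LocallyLipschitzOn (Set.uIcc (0:ℝ) 1) φ := by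
    intro t _
    have hne : c t ≠ 0 := ne_of_norm (hn t)
    have hcd : ContDiffAt ℝ 1 u (c t) :=
      (hu.cd.contDiffAt (isOpen_compl_singleton.mem_nhds hne)).of_le (by
        exact_mod_cast (le_top : ((1 : ℕ∞)) ≤ ⊤))
    obtain ⟨K', s, hs, hls⟩ := hcd.exists_lipschitzOnWith
    refine ⟨K' * K, c ⁻¹' s, mem_nhdsWithin_of_mem_nhds (hcc.continuousAt.preimage_mem_nhds hs), ?_⟩
    exact hls.comp (hK.lipschitzOnWith) (Set.mapsTo_preimage c s)
  obtain ⟨K', hK'⟩ := hloc.exists_lipschitzOnWith_of_compact isCompact_uIcc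
  have hac : AbsolutelyContinuousOnInterval φ 0 1 := hK'.absolutelyContinuousOnInterval
  have hint := hac.integral_deriv_eq_sub
  have hφ01 : φ 1 - φ 0 = u y - u x := by rw [hφ]; simp only [h0, h1]
  rw [hφ01] at hint
  have hae : ∀ᵐ t : ℝ, |deriv φ t| ≤ L * speed g c t := by
    filter_upwards [hK.ae_differentiableAt_real] with t ht
    have h2 := (h7 n).1 u c (deriv c t) t hu (hn t) ht.hasDerivAt
    have h3 : deriv φ t = ∑ i, deriv c t i * ed i u (c t) := h2.deriv
    rw [h3]
    have h4 := pair_cs h6 hg (c t) (fun i => ed i u (c t)) (fun i => deriv c t i)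
    have h5 := hgg (c t) (ne_of_norm (hn t))
    have h6' := ip_nonneg hg (c t) (fun i => deriv c t i)
    have hsp : speed g c t ^ 2 = ip g (c t) (fun i => deriv c t i) (fun i => deriv c t i) :=
      Real.sq_sqrt h6'
    apply abs_le_of_sq_le_sq _ (mul_nonneg hL (Real.sqrt_nonneg _))
    rw [mul_pow]
    change _ ≤ L ^ 2 * speed g c t ^ 2
    rw [hsp]
    exact h4.trans (mul_le_mul_of_nonneg_right h5 h6')
  have hsi := speed_integrable hg hK hn
  calc |u x - u y| = |∫ t in (0:ℝ)..1, deriv φ t| := by rw [hint, abs_sub_comm]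
    _ ≤ ∫ t in (0:ℝ)..1, |deriv φ t| := intervalIntegral.abs_integral_le_integral_abs zero_le_one
    _ ≤ ∫ t in (0:ℝ)..1, L * speed g c t := by
        apply intervalIntegral.integral_mono_ae zero_le_one hac.intervalIntegrable_deriv.abs
          (hsi.const_mul L)
        exact hae
    _ = L * glen g c := by rw [intervalIntegral.integral_const_mul, glen]

theorem lip (h6 : Goal_C6) (h7 : Goal_C7) : LipStmt := by
  intro n g u L hn1 hg hu hL hgg x y hx hy
  obtain ⟨c₀, hc₀⟩ := exists_joins hn1 hx hy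
  have hne : ({r | ∃ c, Joins c x y ∧ r = glen g c} : Set ℝ).Nonempty := ⟨_, c₀, hc₀, rfl⟩
  rcases hL.eq_or_lt with h | h
  · have h1 := lip_curve h6 h7 hg hu hL hgg hc₀
    rw [← h, zero_mul] at h1
    rw [← h, zero_mul]
    exact h1
  · unfold gdist
    rw [← div_le_iff₀' h]
    apply le_csInf hne
    rintro r ⟨c, hc, rfl⟩
    rw [div_le_iff₀' h]
    exact lip_curve h6 h7 hg hu hL hgg hc

end Pool.Agent.Helper32.RFn.LIP
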