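import Pool.Agent.Helper73.RFn.GoalsH

/-!
PACKET RFn-SMO (MP_c98eff_gt, general dimension, owner helper73): smoothing of the distance function.
-/

set_option autoImplicit false

open Finset Pool.Agent.Helper47.RFn Pool.Agent.Helper73.RFn MeasureTheory

namespace Pool.Agent.Helper32.RFn.SMO

variable {n : ℕ}

/-! ### normalisation -/

/-- radial projection to the unit sphere -/
noncomputable def N (y : EE n) : EE n := ‖y‖⁻¹ • y

lemma N_smul {r : ℝ} (hr : 0 < r) (y : EE n) : N (r • y) = N y := by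
  unfold N
  rw [norm_smul, Real.norm_of_nonneg hr.le, smul_smul]
  congr 1
  rcases eq_or_ne y 0 with rfl | hy
  · simp
  · have : ‖y‖ ≠ 0 := norm_ne_zero_iff.mpr hy
    field_simp

lemma norm_N {y : EE n} (hy : y ≠ 0) : ‖N y‖ = 1 := by
  unfold N
  rw [norm_smul, norm_inv, norm_norm, inv_mul_cancel₀ (norm_ne_zero_iff.mpr hy)]

lemma N_unit {y : EE n} (hy : ‖y‖ = 1) : N y = y := by
  unfold N
  rw [hy, inv_one, one_smul]

lemma N_sub {a b : EE n} (ha : a ≠ 0) (hb : b ≠ 0) : ‖N a - N b‖ ≤ 2 * ‖a‖⁻¹ * ‖a - b‖ := by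
  have ha' : 0 < ‖a‖ := norm_pos_iff.mpr ha
  have hb' : 0 < ‖b‖ := norm_pos_iff.mpr hb
  have e : N a - N b = ‖a‖⁻¹ • (a - b) + (‖a‖⁻¹ - ‖b‖⁻¹) • b := by
    unfold N
    module
  rw [e]
  refine (norm_add_le _ _).trans ?_
  rw [norm_smul, norm_smul, norm_inv, norm_norm, Real.norm_eq_abs]
  have h1 : |‖a‖⁻¹ - ‖b‖⁻¹| * ‖b‖ = ‖a‖⁻¹ * |‖b‖ - ‖a‖| := by
    have : ‖a‖⁻¹ - ‖b‖⁻¹ = (‖b‖ - ‖a‖) * (‖a‖⁻¹ * ‖b‖⁻¹) := by field_simp
    rw [this, abs_mul, abs_of_pos (by positivity : (0:ℝ) < ‖a‖⁻¹ * ‖b‖⁻¹)]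
    field_simp
  rw [h1]
  have h2 : |‖b‖ - ‖a‖| ≤ ‖a - b‖ := by
    rw [abs_sub_comm]
    exact abs_norm_sub_norm_le a b
  have h3 := mul_le_mul_of_nonneg_left h2 (inv_nonneg.mpr ha'.le)
  linarith

/-! ### quadratic forms -/

lemma ip_nonneg {G : MF n} (hG : IsMetric G) (x : EE n) (v : Fin (n + 1) → ℝ) : 0 ≤ ip G x v v := by
  have h := (hG.pos x).posSemidef.dotProduct_mulVec_nonneg v
  have e : ip G x v v = star v ⬝ᵥ (G x).mulVec v := by
    unfold ip
    simp only [dotProduct, Matrix.mulVec, Finset.mul_sum, star_trivial, Pi.star_apply]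
    refine Finset.sum_congr rfl fun i _ => Finset.sum_congr rfl fun j _ => ?_
    ring
  rw [e]
  exact h

lemma ip_pos {G : MF n} (hG : IsMetric G) (x : EE n) {v : Fin (n + 1) → ℝ} (hv : v ≠ 0) :
    0 < ip G x v v := by
  have h := (hG.pos x).dotProduct_mulVec_pos hv
  have e : ip G x v v = star v ⬝ᵥ (G x).mulVec v := by
    unfold ip
    simp only [dotProduct, Matrix.mulVec, Finset.mul_sum, star_trivial, Pi.star_apply]
    refine Finset.sum_congr rfl fun i _ => Finset.sum_congr rfl fun j _ => ?_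
    ring
  rw [e]
  exact h

lemma G_symm {G : MF n} (hG : IsMetric G) (x : EE n) (i j : Fin (n + 1)) : G x i j = G x j i := by
  have h := (hG.pos x).isHermitian
  have := congrFun (congrFun h j) i
  simpa [Matrix.conjTranspose_apply] using this

lemma ip_smul (G : MF n) (x : EE n) (a : ℝ) (v : Fin (n + 1) → ℝ) :
    ip G x (fun i => a * v i) (fun i => a * v i) = a ^ 2 * ip G x v v := by
  unfold ip
  rw [Finset.mul_sum]
  refine Finset.sum_congr rfl fun i _ => ?_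
  rw [Finset.mul_sum]
  refine Finset.sum_congr rfl fun j _ => ?_
  ring

lemma ip_hom {G : MF n} (hG : IsMetric G) {r : ℝ} (hr : 0 < r) (x : EE n) (v w : Fin (n + 1) → ℝ) :
    ip G (r • x) v w = ip G x v w := by
  unfold ip
  refine Finset.sum_congr rfl fun i _ => Finset.sum_congr rfl fun j _ => ?_
  have : G (r • x) i j = G x i j := (hG.sm i j).hom r x hr
  rw [this]

/-- projection decreases the form -/
lemma ip_proj {G : MF n} (hG : IsMetric G) (y w : EE n) (l : ℝ) :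
    ip G y (fun i => w i - l * y i) (fun i => w i - l * y i)
      = ip G y (fun i => w i) (fun i => w i) - 2 * l * (∑ i, w i * y i) + l ^ 2 * ∑ i, y i * y i := by
  have h1 : ∀ i, ∑ j, G y i j * y j = y i := hG.rad y
  have h2 : ∑ i, ∑ j, G y i j * w i * y j = ∑ i, w i * y i := by
    refine Finset.sum_congr rfl fun i _ => ?_
    rw [show w i * y i = w i * ∑ j, G y i j * y j by rw [h1 i], Finset.mul_sum]
    exact Finset.sum_congr rfl fun j _ => by ring
  have h3 : ∑ i, ∑ j, G y i j * y i * w j = ∑ i, w i * y i := by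
    rw [Finset.sum_comm, ← h2]
    refine Finset.sum_congr rfl fun i _ => Finset.sum_congr rfl fun j _ => ?_
    rw [G_symm hG y i j]
    ring
  have h4 : ∑ i, ∑ j, G y i j * y i * y j = ∑ i, y i * y i := by
    refine Finset.sum_congr rfl fun i _ => ?_
    rw [show y i * y i = y i * ∑ j, G y i j * y j by rw [h1 i], Finset.mul_sum]
    exact Finset.sum_congr rfl fun j _ => by ring
  have h5 : ip G y (fun i => w i - l * y i) (fun i => w i - l * y i)
      = ip G y (fun i => w i) (fun i => w i) - l * (∑ i, ∑ j, G y i j * w i * y j)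
        - l * (∑ i, ∑ j, G y i j * y i * w j) + l ^ 2 * ∑ i, ∑ j, G y i j * y i * y j := by
    unfold ip
    simp only [Finset.mul_sum, ← Finset.sum_sub_distrib, ← Finset.sum_add_distrib]
    exact Finset.sum_congr rfl fun i _ => Finset.sum_congr rfl fun j _ => by ring
  rw [h5, h2, h3, h4]
  ring

lemma cont_G {G : MF n} (hG : IsMetric G) (i j : Fin (n + 1)) :
    ContinuousOn (fun x : EE n => G x i j) {0}ᶜ := (hG.sm i j).cd.continuousOn

/-- entries are bounded -/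
lemma entries_bdd {G : MF n} (hG : IsMetric G) :
    ∃ C : ℝ, 0 < C ∧ ∀ x : EE n, x ≠ 0 → ∀ i j, |G x i j| ≤ C := by
  have h : ∀ i j : Fin (n + 1), ∃ C : ℝ, ∀ x ∈ Metric.sphere (0 : EE n) 1, ‖G x i j‖ ≤ C := by
    intro i j
    apply (isCompact_sphere (0 : EE n) 1).exists_bound_of_continuousOn
    refine (cont_G hG i j).mono ?_
    intro x hx
    rw [mem_sphere_zero_iff_norm] at hx
    simp only [Set.mem_compl_iff, Set.mem_singleton_iff]
    rintro rfl
    simp at hx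
  choose C hC using h
  refine ⟨1 + ∑ i, ∑ j, |C i j|, by positivity, fun x hx i j => ?_⟩
  have h0 : G x i j = G (N x) i j := by
    have := (hG.sm i j).hom ‖x‖⁻¹ x (inv_pos.mpr (norm_pos_iff.mpr hx))
    exact this.symm
  rw [h0]
  have h1 : |G (N x) i j| ≤ C i j := hC i j (N x) (by rw [mem_sphere_zero_iff_norm]; exact norm_N hx)
  have h2 : |C i j| ≤ ∑ j, |C i j| :=
    Finset.single_le_sum (f := fun j => |C i j|) (fun j _ => abs_nonneg _) (Finset.mem_univ j)
  have h3 : ∑ j, |C i j| ≤ ∑ i, ∑ j, |C i j| :=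
    Finset.single_le_sum (f := fun i => ∑ j, |C i j|)
      (fun i _ => Finset.sum_nonneg fun j _ => abs_nonneg _) (Finset.mem_univ i)
  have h4 := le_abs_self (C i j)
  linarith

/-- lower bound for the metric on the unit sphere -/
lemma lower {G : MF n} (hG : IsMetric G) : ∃ c : ℝ, 0 < c ∧ ∀ x : EE n, ‖x‖ = 1 → ∀ v : EE n,
    c * ‖v‖ ^ 2 ≤ ip G x (fun i => v i) (fun i => v i) := by
  set K : Set (EE n × EE n) := Metric.sphere (0 : EE n) 1 ×ˢ Metric.sphere (0 : EE n) 1 with hK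
  have hKc : IsCompact K := (isCompact_sphere _ _).prod (isCompact_sphere _ _)
  have hne0 : ∀ x : EE n, ‖x‖ = 1 → x ≠ 0 := by
    rintro x hx rfl
    simp at hx
  have hcont : ContinuousOn (fun p : EE n × EE n => ip G p.1 (fun i => p.2 i) (fun i => p.2 i)) K := by
    unfold ip
    refine continuousOn_finsetSum _ fun i _ => continuousOn_finsetSum _ fun j _ => ?_
    have h1 : ContinuousOn (fun p : EE n × EE n => G p.1 i j) K :=
      (cont_G hG i j).comp continuousOn_fst fun p hp => by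
        rw [Set.mem_compl_singleton_iff]
        exact hne0 _ (mem_sphere_zero_iff_norm.mp hp.1)
    have h2 : ∀ i : Fin (n + 1), ContinuousOn (fun p : EE n × EE n => p.2 i) K := fun i => by fun_prop
    exact (h1.mul (h2 i)).mul (h2 j)
  have hKne : K.Nonempty := by
    refine ⟨(EuclideanSpace.single 0 1, EuclideanSpace.single 0 1), ?_, ?_⟩ <;> simp
  obtain ⟨p, hp, hmin⟩ := hKc.exists_isMinOn hKne hcont
  have hp2 : ‖p.2‖ = 1 := mem_sphere_zero_iff_norm.mp hp.2
  have hpos : 0 < ip G p.1 (fun i => p.2 i) (fun i => p.2 i) := by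
    apply ip_pos hG
    intro h
    apply hne0 _ hp2
    ext i
    exact congrFun h i
  refine ⟨_, hpos, fun x hx v => ?_⟩
  rcases eq_or_ne v 0 with rfl | hv
  · simp [ip]
  · have hv' : ‖v‖ ≠ 0 := norm_ne_zero_iff.mpr hv
    have h1 := hmin (show (x, N v) ∈ K from ⟨mem_sphere_zero_iff_norm.mpr hx,
      mem_sphere_zero_iff_norm.mpr (norm_N hv)⟩)
    simp only [Set.mem_ofPred_eq] at h1
    have h2 : ip G x (fun i => v i) (fun i => v i)
        = ‖v‖ ^ 2 * ip G x (fun i => N v i) (fun i => N v i) := by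
      rw [← ip_smul]
      have : (fun i => ‖v‖ * N v i) = fun i => v i := by
        funext i
        simp only [N, PiLp.smul_apply, smul_eq_mul]
        field_simp
      rw [this]
    rw [h2, mul_comm]
    exact mul_le_mul_of_nonneg_left h1 (by positivity)

lemma sum_sq_eq (v : EE n) : ∑ i, v i * v i = ‖v‖ ^ 2 := by
  rw [EuclideanSpace.norm_sq_eq]
  exact Finset.sum_congr rfl fun i _ => by rw [Real.norm_eq_abs, sq_abs, sq]

lemma coord_le (v : EE n) (i : Fin (n + 1)) : |v i| ≤ ‖v‖ := by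
  have := PiLp.norm_apply_le v i
  rwa [Real.norm_eq_abs] at this

/-- modulus of continuity of the metric -/
lemma modulus {G : MF n} (hG : IsMetric G) {e : ℝ} (he : 0 < e) : ∃ η : ℝ, 0 < η ∧ η ≤ 1 / 2 ∧
    ∀ x y : EE n, ‖x‖ = 1 → ‖y - x‖ < η → ∀ v : EE n,
    ip G y (fun i => v i) (fun i => v i) ≤ (1 + e) * ip G x (fun i => v i) (fun i => v i) := by
  obtain ⟨c, hc0, hc⟩ := lower hG
  set K : Set (EE n) := Metric.closedBall 0 2 \ Metric.ball 0 (1 / 2) with hK
  have hKc : IsCompact K := (isCompact_closedBall _ _).diff Metric.isOpen_ball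
  have hK0 : K ⊆ {0}ᶜ := by
    rintro x ⟨-, hx2⟩
    rw [Set.mem_compl_singleton_iff]
    rintro rfl
    exact hx2 (by simp)
  set δ : ℝ := c * e / ((n : ℝ) + 1) ^ 2 with hδ
  have hδ0 : 0 < δ := by positivity
  have huc : ∀ i j : Fin (n + 1), ∃ η > 0, ∀ x ∈ K, ∀ y ∈ K, dist x y < η → dist (G x i j) (G y i j) < δ := by
    intro i j
    have h1 : UniformContinuousOn (fun x : EE n => G x i j) K :=
      hKc.uniformContinuousOn_of_continuous ((cont_G hG i j).mono hK0)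
    rw [Metric.uniformContinuousOn_iff] at h1
    exact h1 δ hδ0
  choose η hη0 hη using huc
  obtain ⟨m, hm0, hm⟩ : ∃ m : ℝ, 0 < m ∧ ∀ i j, m ≤ η i j := by
    have h1 : ∃ m : ℝ, 0 < m ∧ ∀ q : Fin (n + 1) × Fin (n + 1), m ≤ η q.1 q.2 := by
      obtain ⟨q, hq⟩ := Finite.exists_min (fun q : Fin (n + 1) × Fin (n + 1) => η q.1 q.2)
      exact ⟨η q.1 q.2, hη0 _ _, hq⟩
    obtain ⟨m, h1, h2⟩ := h1
    exact ⟨m, h1, fun i j => h2 (i, j)⟩
  refine ⟨min m (1 / 2), lt_min hm0 (by norm_num), min_le_right _ _, fun x y hx hxy v => ?_⟩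
  have hxy1 : ‖y - x‖ < m := hxy.trans_le (min_le_left _ _)
  have hxy2 : ‖y - x‖ < 1 / 2 := hxy.trans_le (min_le_right _ _)
  have hxK : x ∈ K := by
    refine ⟨?_, ?_⟩
    · rw [mem_closedBall_zero_iff, hx]; norm_num
    · rw [mem_ball_zero_iff, hx]; norm_num
  have hyK : y ∈ K := by
    have h1 : ‖x‖ ≤ ‖y‖ + ‖y - x‖ := by
      have := norm_sub_le y (y - x)
      rwa [sub_sub_cancel] at this
    have h2 : ‖y‖ ≤ ‖x‖ + ‖y - x‖ := by
      have := norm_add_le x (y - x)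
      rwa [add_sub_cancel] at this
    refine ⟨?_, ?_⟩
    · rw [mem_closedBall_zero_iff]; linarith
    · rw [mem_ball_zero_iff]; linarith
  have h1 : ∀ i j, G y i j * v i * v j ≤ G x i j * v i * v j + δ * ‖v‖ ^ 2 := by
    intro i j
    have h2 := hη i j y hyK x hxK (by rw [dist_eq_norm]; exact hxy1.trans_le (hm i j))
    rw [Real.dist_eq] at h2
    have h3 : |(G y i j - G x i j) * v i * v j| ≤ δ * ‖v‖ * ‖v‖ := by
      rw [abs_mul, abs_mul]
      gcongr
      · exact coord_le v i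
      · exact coord_le v j
    have h4 := le_abs_self ((G y i j - G x i j) * v i * v j)
    nlinarith
  have h2 : ip G y (fun i => v i) (fun i => v i)
      ≤ ip G x (fun i => v i) (fun i => v i) + ((n : ℝ) + 1) ^ 2 * (δ * ‖v‖ ^ 2) := by
    have h3 : ∑ i : Fin (n + 1), ∑ j : Fin (n + 1), (G x i j * v i * v j + δ * ‖v‖ ^ 2)
        = ip G x (fun i => v i) (fun i => v i) + ((n : ℝ) + 1) ^ 2 * (δ * ‖v‖ ^ 2) := by
      simp only [Finset.sum_add_distrib, Finset.sum_const, Finset.card_univ, Fintype.card_fin,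
        nsmul_eq_mul]
      unfold ip
      push_cast
      ring
    rw [← h3]
    exact Finset.sum_le_sum fun i _ => Finset.sum_le_sum fun j _ => h1 i j
  have h3 : ((n : ℝ) + 1) ^ 2 * (δ * ‖v‖ ^ 2) = e * (c * ‖v‖ ^ 2) := by
    rw [hδ]
    field_simp
  have h4 := mul_le_mul_of_nonneg_left (hc x hx v) he.le
  rw [h3] at h2
  linarith

/-! ### the chord estimate -/

/-- clamp to `[0,1]` -/
noncomputable def cl (t : ℝ) : ℝ := max 0 (min 1 t)

lemma cl_mem (t : ℝ) : 0 ≤ cl t ∧ cl t ≤ 1 :=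
  ⟨le_max_left _ _, max_le zero_le_one (min_le_left _ _)⟩

lemma cl_eq {t : ℝ} (h0 : 0 ≤ t) (h1 : t ≤ 1) : cl t = t := by
  unfold cl
  rw [min_eq_right h1, max_eq_right h0]

lemma cl_lip (s t : ℝ) : |cl s - cl t| ≤ |s - t| := by
  unfold cl
  rw [max_comm 0, max_comm 0]
  refine (abs_max_sub_max_le_abs _ _ _).trans ?_
  rw [min_comm 1, min_comm 1]
  refine (abs_min_sub_min_le_max _ _ _ _).trans ?_
  rw [sub_self, abs_zero, max_eq_left (abs_nonneg _)]

/-- normalised segment -/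
noncomputable def sg (a b : EE n) (t : ℝ) : EE n := N (a + cl t • (b - a))

lemma seg_close {x a b : EE n} {η : ℝ} (ha : ‖a - x‖ < η) (hb : ‖b - x‖ < η) (t : ℝ) (h0 : 0 ≤ t)
    (h1 : t ≤ 1) : ‖a + t • (b - a) - x‖ < η := by
  rcases eq_or_lt_of_le h0 with h | h
  · subst h
    simpa using ha
  have e : a + t • (b - a) - x = (1 - t) • (a - x) + t • (b - x) := by module
  rw [e]
  have h2 := norm_add_le ((1 - t) • (a - x)) (t • (b - x))
  rw [norm_smul, norm_smul, Real.norm_of_nonneg (by linarith : (0:ℝ) ≤ 1 - t),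
    Real.norm_of_nonneg h0] at h2
  nlinarith

lemma norm_ge {x y : EE n} {η : ℝ} (hx : ‖x‖ = 1) (h : ‖y - x‖ < η) : 1 - η < ‖y‖ := by
  have := norm_sub_le y (y - x)
  rw [sub_sub_cancel, hx] at this
  linarith

lemma joins_sg {x a b : EE n} (hx : ‖x‖ = 1) (ha : ‖a - x‖ < 1 / 2) (hb : ‖b - x‖ < 1 / 2) :
    Joins (sg a b) (N a) (N b) := by
  have hb1 : ∀ t, 1 / 2 < ‖a + cl t • (b - a)‖ := by
    intro t
    have := norm_ge hx (seg_close ha hb (cl t) (cl_mem t).1 (cl_mem t).2)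
    linarith
  have hne : ∀ t, a + cl t • (b - a) ≠ 0 := by
    intro t h
    have := hb1 t
    rw [h, norm_zero] at this
    linarith
  refine ⟨⟨⟨4 * ‖b - a‖, by positivity⟩, ?_⟩, fun t => norm_N (hne t), ?_, ?_⟩
  · apply LipschitzWith.of_dist_le_mul
    intro s t
    rw [dist_eq_norm, Real.dist_eq]
    unfold sg
    refine (N_sub (hne s) (hne t)).trans ?_
    have e : a + cl s • (b - a) - (a + cl t • (b - a)) = (cl s - cl t) • (b - a) := by module
    rw [e, norm_smul, Real.norm_eq_abs]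
    have h1 : ‖a + cl s • (b - a)‖⁻¹ ≤ 2 := by
      rw [inv_le_comm₀ (by linarith [hb1 s]) (by norm_num)]
      linarith [hb1 s]
    have h2 := cl_lip s t
    have h3 : 2 * ‖a + cl s • (b - a)‖⁻¹ * (|cl s - cl t| * ‖b - a‖)
        ≤ 2 * 2 * (|s - t| * ‖b - a‖) := by gcongr
    refine h3.trans (le_of_eq ?_)
    show _ = 4 * ‖b - a‖ * |s - t|
    ring
  · unfold sg
    rw [cl_eq le_rfl zero_le_one, zero_smul, add_zero]
  · unfold sg
    rw [cl_eq zero_le_one le_rfl, one_smul, add_sub_cancel]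

lemma sg_der {a b : EE n} {t : ℝ} (h0 : 0 < t) (h1 : t < 1) (hne : a + t • (b - a) ≠ 0) :
    HasDerivAt (sg a b) (‖a + t • (b - a)‖⁻¹ • ((b - a)
      - (inner ℝ (a + t • (b - a)) (b - a) / ‖a + t • (b - a)‖ ^ 2) • (a + t • (b - a)))) t := by
  set y : ℝ → EE n := fun t => a + t • (b - a) with hy
  have hy1 : HasDerivAt y (b - a) t := by
    have := ((hasDerivAt_id t).smul_const (b - a)).const_add a
    rw [one_smul] at this
    exact this
  have hn : ‖y t‖ ≠ 0 := norm_ne_zero_iff.mpr hne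
  have hn2 : HasDerivAt (fun t => ‖y t‖) (inner ℝ (y t) (b - a) / ‖y t‖) t := by
    have h2 : HasDerivAt (fun t => ‖y t‖ ^ 2) (2 * inner ℝ (y t) (b - a)) t := hy1.norm_sq
    have h3 := h2.sqrt (by positivity)
    have h4 : (fun t => Real.sqrt (‖y t‖ ^ 2)) = fun t => ‖y t‖ := by
      funext s
      exact Real.sqrt_sq (norm_nonneg _)
    rw [h4, Real.sqrt_sq (norm_nonneg _)] at h3
    convert h3 using 1
    field_simp
  have h5 := (hn2.inv hn).smul hy1
  have h6 : HasDerivAt (fun t => N (y t)) (‖y t‖⁻¹ • ((b - a)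
      - (inner ℝ (y t) (b - a) / ‖y t‖ ^ 2) • y t)) t := by
    have e1 : (fun t => N (y t)) = (fun t => ‖y t‖)⁻¹ • y := by
      funext s
      rfl
    rw [e1]
    refine h5.congr_deriv ?_
    have e2 : -(inner ℝ (y t) (b - a) / ‖y t‖) / ‖y t‖ ^ 2
        = -(‖y t‖⁻¹ * (inner ℝ (y t) (b - a) / ‖y t‖ ^ 2)) := by
      field_simp
    rw [e2]
    simp only [Pi.inv_apply]
    module
  refine h6.congr_of_eventuallyEq ?_
  filter_upwards [Ioo_mem_nhds h0 h1] with s hs
  show N (a + cl s • (b - a)) = N (a + s • (b - a))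
  rw [cl_eq hs.1.le hs.2.le]

/-- CHORD: the distance of nearby points -/
lemma chord {G : MF n} (hG : IsMetric G) (hD : DbdStmt) (hn1 : 1 ≤ n) {e η : ℝ} (he : 0 < e) (hη0 : 0 < η)
    (hη : η ≤ 1 / 2) (hmod : ∀ x y : EE n, ‖x‖ = 1 → ‖y - x‖ < η → ∀ v : EE n,
      ip G y (fun i => v i) (fun i => v i) ≤ (1 + e) * ip G x (fun i => v i) (fun i => v i))
    {x a b : EE n} (hx : ‖x‖ = 1) (ha : ‖a - x‖ < η) (hb : ‖b - x‖ < η) :
    gdist G (N a) (N b) ≤ (1 - η)⁻¹ * Real.sqrt ((1 + e) * ip G x (fun i => (b - a) i) (fun i => (b - a) i)) := by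
  have hJ := joins_sg hx (ha.trans_le hη) (hb.trans_le hη)
  refine ((hD n G hn1 hG).2.2.2.2.2.2.2.1 _ _ _ hJ).trans ?_
  unfold glen
  set M := (1 - η)⁻¹ * Real.sqrt ((1 + e) * ip G x (fun i => (b - a) i) (fun i => (b - a) i)) with hM
  have key : ∀ᵐ t : ℝ, t ∈ Set.uIoc (0:ℝ) 1 → ‖speed G (sg a b) t‖ ≤ M := by
    have h1 : ∀ᵐ t : ℝ, t ≠ 1 := by
      rw [ae_iff]
      simp
    filter_upwards [h1] with t ht htI
    rw [Set.uIoc_of_le zero_le_one] at htI
    have ht1 : t < 1 := lt_of_le_of_ne htI.2 ht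
    have hyx := seg_close ha hb t htI.1.le htI.2
    have hyn := norm_ge hx hyx
    set y := a + t • (b - a) with hy
    have hy0 : 0 < ‖y‖ := by linarith
    have hne : y ≠ 0 := norm_pos_iff.mp hy0
    have hd := (sg_der htI.1 ht1 hne).deriv
    rw [← hy] at hd
    have hc : sg a b t = ‖y‖⁻¹ • y := by
      unfold sg
      rw [cl_eq htI.1.le htI.2]
      rfl
    unfold speed
    rw [Real.norm_of_nonneg (Real.sqrt_nonneg _)]
    set l := inner ℝ y (b - a) / ‖y‖ ^ 2 with hl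
    have e1 : (fun i => deriv (sg a b) t i) = fun i => ‖y‖⁻¹ * ((b - a) i - l * y i) := by
      funext i
      rw [hd]
      simp
    rw [e1, ip_smul, hc, ip_hom hG (inv_pos.mpr hy0), ip_proj hG]
    have e2 : ∑ i, (b - a) i * y i = inner ℝ y (b - a) := by
      rw [PiLp.inner_apply]
      exact Finset.sum_congr rfl fun i _ => by simp
    rw [e2, sum_sq_eq]
    have e3 : inner ℝ y (b - a) = l * ‖y‖ ^ 2 := by
      rw [hl]
      field_simp
    rw [e3]
    have h2 := hmod x y hx hyx (b - a)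
    have h3 : ip G y (fun i => (b - a) i) (fun i => (b - a) i) - 2 * l * (l * ‖y‖ ^ 2) + l ^ 2 * ‖y‖ ^ 2
        ≤ (1 + e) * ip G x (fun i => (b - a) i) (fun i => (b - a) i) := by
      have : 0 ≤ l ^ 2 * ‖y‖ ^ 2 := by positivity
      nlinarith
    rw [Real.sqrt_mul (by positivity), Real.sqrt_sq (by positivity)]
    have h4 : ‖y‖⁻¹ ≤ (1 - η)⁻¹ := by
      apply inv_anti₀ (by linarith) hyn.le
    have h5 : 0 ≤ (1 - η)⁻¹ := inv_nonneg.mpr (by linarith)
    rw [hM]
    exact mul_le_mul h4 (Real.sqrt_le_sqrt h3) (Real.sqrt_nonneg _) h5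
  have h2 := intervalIntegral.norm_integral_le_of_norm_le_const_ae key
  have h3 := le_abs_self (∫ t in (0:ℝ)..1, speed G (sg a b) t)
  rw [Real.norm_eq_abs] at h2
  simp only [sub_zero, abs_one, mul_one] at h2
  linarith

/-! ### the distance function and its average -/

/-- distance to `p` as a `0`-homogeneous function -/
noncomputable def DD (G : MF n) (p y : EE n) : ℝ := gdist G p (N y)

lemma DD_hom (G : MF n) (p : EE n) {r : ℝ} (hr : 0 < r) (y : EE n) : DD G p (r • y) = DD G p y := by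
  unfold DD
  rw [N_smul hr]

lemma DD_sub {G : MF n} (hG : IsMetric G) (hD : DbdStmt) (hn1 : 1 ≤ n) {p y z : EE n} (hp : ‖p‖ = 1)
    (hy : y ≠ 0) (hz : z ≠ 0) : DD G p z - DD G p y ≤ gdist G (N y) (N z) := by
  have := (hD n G hn1 hG).2.2.2.2.2.2.1 p (N y) (N z) hp (norm_N hy) (norm_N hz)
  unfold DD
  linarith

lemma DD_cont {G : MF n} (hG : IsMetric G) (hD : DbdStmt) (hn1 : 1 ≤ n) {p : EE n} (hp : ‖p‖ = 1) :
    ∃ C : ℝ, 0 ≤ C ∧ ∀ y z : EE n, y ≠ 0 → z ≠ 0 → |DD G p z - DD G p y| ≤ C * ‖N y - N z‖ := by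
  obtain ⟨C, hC⟩ := (hD n G hn1 hG).2.2.2.2.2.2.2.2
  refine ⟨|C|, abs_nonneg _, fun y z hy hz => ?_⟩
  have h1 := hC _ _ (norm_N hy) (norm_N hz)
  have h2 := hC _ _ (norm_N hz) (norm_N hy)
  have h3 := DD_sub hG hD hn1 hp hy hz
  have h4 := DD_sub hG hD hn1 hp hz hy
  have h5 : ‖N z - N y‖ = ‖N y - N z‖ := norm_sub_rev _ _
  rw [h5] at h2
  have h6 := mul_le_mul_of_nonneg_right (le_abs_self C) (norm_nonneg (N y - N z))
  rw [abs_le]
  constructor <;> linarith

lemma DD_continuousOn {G : MF n} (hG : IsMetric G) (hD : DbdStmt) (hn1 : 1 ≤ n) {p : EE n} (hp : ‖p‖ = 1) :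
    ContinuousOn (DD G p) {0}ᶜ := by
  obtain ⟨C, hC0, hC⟩ := DD_cont hG hD hn1 hp
  intro y hy
  have hy' : y ≠ 0 := hy
  have hN : ContinuousAt (N : EE n → EE n) y := by
    unfold N
    exact (continuous_norm.continuousAt.inv₀ (norm_ne_zero_iff.mpr hy')).smul continuousAt_id
  have h1 : Filter.Tendsto (fun z => C * ‖N y - N z‖) (nhdsWithin y {0}ᶜ) (nhds 0) := by
    have h2 : Filter.Tendsto (fun z => C * ‖N y - N z‖) (nhds y) (nhds (C * ‖N y - N y‖)) :=
      ((tendsto_const_nhds.sub hN).norm).const_mul C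
    rw [sub_self, norm_zero, mul_zero] at h2
    exact h2.mono_left nhdsWithin_le_nhds
  unfold ContinuousWithinAt
  rw [tendsto_iff_norm_sub_tendsto_zero]
  refine squeeze_zero' (Filter.Eventually.of_forall fun z => norm_nonneg _) ?_ h1
  filter_upwards [self_mem_nhdsWithin] with z hz
  exact hC y z hy' hz

lemma DD_bdd {G : MF n} (hG : IsMetric G) (hD : DbdStmt) (hn1 : 1 ≤ n) {p : EE n} (hp : ‖p‖ = 1) :
    ∃ B : ℝ, 0 ≤ B ∧ ∀ y : EE n, |DD G p y| ≤ B := by
  obtain ⟨B, hB⟩ := (hD n G hn1 hG).1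
  refine ⟨|B| + |DD G p 0|, by positivity, fun y => ?_⟩
  rcases eq_or_ne y 0 with rfl | hy
  · have := abs_nonneg B
    linarith
  · have h1 := hB p (N y) hp (norm_N hy)
    have h2 := (hD n G hn1 hG).2.1 p (N y)
    have h3 : |DD G p y| ≤ |B| := by
      unfold DD
      rw [abs_of_nonneg h2]
      exact h1.trans (le_abs_self B)
    have := abs_nonneg (DD G p 0)
    linarith

lemma DD_meas {G : MF n} (hG : IsMetric G) (hD : DbdStmt) (hn1 : 1 ≤ n) {p : EE n} (hp : ‖p‖ = 1) :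
    Measurable (DD G p) := by
  have h1 : MeasurableSet ({0}ᶜ : Set (EE n)) := (measurableSet_singleton _).compl
  have h2 : DD G p = Set.piecewise ({0}ᶜ : Set (EE n)) (DD G p) (fun _ => DD G p 0) := by
    funext y
    by_cases hy : y ∈ ({0}ᶜ : Set (EE n))
    · rw [Set.piecewise_eq_of_mem _ _ _ hy]
    · rw [Set.piecewise_eq_of_notMem _ _ _ hy]
      simp only [Set.mem_compl_iff, Set.mem_singleton_iff, not_not] at hy
      rw [hy]
  rw [h2]
  exact ContinuousOn.measurable_piecewise (DD_continuousOn hG hD hn1 hp) continuousOn_const h1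

/-- the average -/
noncomputable def f1 (ρ D : EE n → ℝ) (x : EE n) : ℝ := ∫ h, ρ h * D (x + ‖x‖ • h)

lemma f1_hom {ρ D : EE n → ℝ} (hD : ∀ r : ℝ, 0 < r → ∀ y, D (r • y) = D y) : Hom0 (f1 ρ D) := by
  intro r x hr
  unfold f1
  congr 1
  funext h
  have : r • x + ‖r • x‖ • h = r • (x + ‖x‖ • h) := by
    rw [norm_smul, Real.norm_of_nonneg hr.le]
    module
  rw [this, hD r hr]

/-- the kernel -/
noncomputable def ker (ρ : EE n → ℝ) (x z : EE n) : ℝ := ‖x‖⁻¹ ^ (n + 1) * ρ (-(‖x‖⁻¹ • z))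

lemma f1_conv {ρ D : EE n → ℝ} {x : EE n} (hx : x ≠ 0) :
    f1 ρ D x = (MeasureTheory.convolution D (ker ρ x) (ContinuousLinearMap.mul ℝ ℝ) volume) x := by
  have hs : 0 < ‖x‖ := norm_pos_iff.mpr hx
  rw [MeasureTheory.convolution]
  simp only [ContinuousLinearMap.mul_apply']
  have h1 : ∫ t, D t * ker ρ x (x - t) = ∫ t, D (x + t) * ker ρ x (-t) := by
    rw [← integral_add_left_eq_self (fun t => D t * ker ρ x (x - t)) x]
    congr 1
    funext t
    rw [show x - (x + t) = -t by abel]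
  rw [h1]
  have h2 := Measure.integral_comp_smul (volume : Measure (EE n)) (fun t => D (x + t) * ker ρ x (-t)) ‖x‖
  have h3 : |(‖x‖ ^ Module.finrank ℝ (EE n))⁻¹| = ‖x‖⁻¹ ^ (n + 1) := by
    rw [finrank_euclideanSpace, Fintype.card_fin, abs_of_pos (by positivity), inv_pow]
  rw [h3] at h2
  have h4 : ∫ t, D (x + t) * ker ρ x (-t) = ‖x‖ ^ (n + 1) * ∫ t, D (x + ‖x‖ • t) * ker ρ x (-(‖x‖ • t)) := by
    rw [h2, smul_eq_mul, ← mul_assoc, ← mul_pow, mul_inv_cancel₀ hs.ne', one_pow, one_mul]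
  rw [h4, ← integral_const_mul]
  unfold f1
  congr 1
  funext t
  unfold ker
  have h5 : -(‖x‖⁻¹ • -(‖x‖ • t)) = t := by
    rw [smul_neg, neg_neg, smul_smul, inv_mul_cancel₀ hs.ne', one_smul]
  rw [h5]
  have h6 : ‖x‖ ^ (n + 1) * ‖x‖⁻¹ ^ (n + 1) = 1 := by
    rw [← mul_pow, mul_inv_cancel₀ hs.ne', one_pow]
  calc ρ t * D (x + ‖x‖ • t) = (‖x‖ ^ (n + 1) * ‖x‖⁻¹ ^ (n + 1)) * (ρ t * D (x + ‖x‖ • t)) := by
        rw [h6, one_mul]
    _ = _ := by ring

lemma f1_smooth {ρ D : EE n → ℝ} (hρ : ContDiff ℝ oo ρ) {r : ℝ} (hr : 0 < r)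
    (hρs : ∀ h, r < ‖h‖ → ρ h = 0) (hD : LocallyIntegrable D volume) :
    ContDiffOn ℝ oo (f1 ρ D) {0}ᶜ := by
  intro x0 hx0
  have hx0' : x0 ≠ 0 := hx0
  set R := ‖x0‖ + 1 with hR
  set S : Set (EE n) := {0}ᶜ ∩ Metric.ball 0 R with hS
  have hSo : IsOpen S := isOpen_compl_singleton.inter Metric.isOpen_ball
  have hx0S : x0 ∈ S := ⟨hx0, by rw [mem_ball_zero_iff]; linarith⟩
  have hn0 : ∀ q ∈ S, ‖q‖ ≠ 0 := fun q hq => norm_ne_zero_iff.mpr hq.1
  have key : ContDiffOn ℝ ((⊤ : ℕ∞) : WithTop ℕ∞) (fun x =>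
      (MeasureTheory.convolution D (ker ρ x) (ContinuousLinearMap.mul ℝ ℝ) volume) x) S := by
    refine contDiffOn_convolution_right_with_param_comp (n := ⊤) (ContinuousLinearMap.mul ℝ ℝ) (v := fun x => x)
      contDiffOn_id hSo (isCompact_closedBall (0 : EE n) (R * r)) ?_ hD ?_
    · intro q z hq hz
      have hq0 : 0 < ‖q‖ := norm_pos_iff.mpr hq.1
      have hqR : ‖q‖ < R := by
        have := hq.2
        rwa [mem_ball_zero_iff] at this
      rw [mem_closedBall_zero_iff, not_le] at hz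
      unfold ker
      rw [hρs, mul_zero]
      rw [norm_neg, norm_smul, norm_inv, norm_norm]
      have h1 : ‖q‖ * r < ‖z‖ := (mul_lt_mul_of_pos_right hqR hr).trans hz
      rw [inv_mul_eq_div, lt_div_iff₀ hq0]
      linarith
    · have hnorm : ContDiffOn ℝ ((⊤ : ℕ∞) : WithTop ℕ∞) (fun q : EE n × EE n => ‖q.1‖) (S ×ˢ Set.univ) := by
        intro q hq
        have hq1 : q.1 ≠ 0 := hq.1.1
        exact ((contDiffAt_norm ℝ hq1).comp q contDiffAt_fst).contDiffWithinAt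
      have hinv : ContDiffOn ℝ ((⊤ : ℕ∞) : WithTop ℕ∞) (fun q : EE n × EE n => ‖q.1‖⁻¹) (S ×ˢ Set.univ) :=
        hnorm.inv fun q hq => hn0 _ hq.1
      have h2 : ContDiffOn ℝ ((⊤ : ℕ∞) : WithTop ℕ∞) (fun q : EE n × EE n => -(‖q.1‖⁻¹ • q.2)) (S ×ˢ Set.univ) :=
        (hinv.smul contDiffOn_snd).neg
      have h3 := (hρ.comp_contDiffOn h2)
      exact (hinv.pow (n + 1)).mul h3
  have h1 : ContDiffWithinAt ℝ oo (f1 ρ D) S x0 := by
    refine (key x0 hx0S).congr (fun y hy => f1_conv hy.1) (f1_conv hx0')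
  refine h1.mono_of_mem_nhdsWithin ?_
  exact mem_nhdsWithin_of_mem_nhds (hSo.mem_nhds hx0S)

/-! ### closeness and gradient -/

/-- hypotheses on the mollifier -/
structure Mol (ρ : EE n → ℝ) (r : ℝ) : Prop where
  sm : ContDiff ℝ oo ρ
  nonneg : ∀ h, 0 ≤ ρ h
  supp : ∀ h, r < ‖h‖ → ρ h = 0
  int : Integrable ρ
  one : ∫ h, ρ h = 1

lemma exists_mol {r : ℝ} (hr : 0 < r) : ∃ ρ : EE n → ℝ, Mol ρ r := by
  let b : ContDiffBump (0 : EE n) := ⟨r / 2, r, by positivity, by linarith⟩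
  refine ⟨b.normed volume, b.contDiff_normed, b.nonneg_normed, fun h hh => ?_, b.integrable_normed,
    b.integral_normed⟩
  have h1 : h ∉ Function.support (b.normed volume) := by
    rw [b.support_normed_eq, mem_ball_zero_iff]
    exact not_lt.mpr hh.le
  rwa [Function.notMem_support] at h1

lemma int_rD {ρ D : EE n → ℝ} {r : ℝ} (hρ : Mol ρ r) (hDm : Measurable D) {B : ℝ} (hDb : ∀ y, |D y| ≤ B)
    {φ : EE n → EE n} (hφ : Measurable φ) : Integrable (fun h => ρ h * D (φ h)) := by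
  refine hρ.int.mul_bdd (c := B) (hDm.comp hφ).aestronglyMeasurable (Filter.Eventually.of_forall fun h => ?_)
  rw [Real.norm_eq_abs]
  exact hDb _

lemma avg_le {ρ : EE n → ℝ} {r : ℝ} (hρ : Mol ρ r) {F : EE n → ℝ} {M : ℝ}
    (hF : Integrable (fun h => ρ h * F h)) (hM : ∀ h, ‖h‖ ≤ r → F h ≤ M) : ∫ h, ρ h * F h ≤ M := by
  have h1 : ∫ h, ρ h * F h ≤ ∫ h, ρ h * M := by
    apply integral_mono hF (hρ.int.mul_const M)
    intro h
    by_cases hh : ‖h‖ ≤ r
    · exact mul_le_mul_of_nonneg_left (hM h hh) (hρ.nonneg h)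
    · simp only [hρ.supp h (not_le.mp hh), zero_mul, le_refl]
  rw [integral_mul_const, hρ.one, one_mul] at h1
  exact h1

lemma meas_shift (x : EE n) (l : ℝ) : Measurable (fun h : EE n => x + l • h) := by fun_prop

lemma f1_sub {ρ D : EE n → ℝ} {r : ℝ} (hρ : Mol ρ r) (hDm : Measurable D) {B : ℝ} (hDb : ∀ y, |D y| ≤ B)
    {x y : EE n} {M : ℝ} (hM : ∀ h, ‖h‖ ≤ r → D (y + ‖y‖ • h) - D (x + ‖x‖ • h) ≤ M) :
    f1 ρ D y - f1 ρ D x ≤ M := by
  have h1 := int_rD hρ hDm hDb (meas_shift y ‖y‖)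
  have h2 := int_rD hρ hDm hDb (meas_shift x ‖x‖)
  unfold f1
  rw [← integral_sub h1 h2]
  have h3 : (fun h => ρ h * D (y + ‖y‖ • h) - ρ h * D (x + ‖x‖ • h))
      = fun h => ρ h * (D (y + ‖y‖ • h) - D (x + ‖x‖ • h)) := by
    funext h
    ring
  rw [h3]
  have h4 := h1.sub h2
  refine avg_le hρ ?_ hM
  rw [← h3]
  exact h4

lemma f1_bdd {ρ D : EE n → ℝ} {r : ℝ} (hρ : Mol ρ r) (hDm : Measurable D) {B : ℝ} (hDb : ∀ y, |D y| ≤ B)
    (x : EE n) : |f1 ρ D x| ≤ B := by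
  have h1 := int_rD hρ hDm hDb (meas_shift x ‖x‖)
  have h2 : f1 ρ D x ≤ B := avg_le hρ h1 fun h _ => (abs_le.mp (hDb _)).2
  have h3 : - f1 ρ D x ≤ B := by
    have h4 : (fun h => ρ h * -D (x + ‖x‖ • h)) = fun h => -(ρ h * D (x + ‖x‖ • h)) := by
      funext h
      ring
    have h5 : ∫ h, ρ h * -D (x + ‖x‖ • h) ≤ B := by
      refine avg_le hρ ?_ fun h _ => ?_
      · rw [h4]
        exact h1.neg
      · linarith [(abs_le.mp (hDb (x + ‖x‖ • h))).1]
    rw [h4, integral_neg] at h5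
    exact h5
  rw [abs_le]
  constructor <;> linarith

lemma f1_close {ρ D : EE n → ℝ} {r : ℝ} (hρ : Mol ρ r) (hDm : Measurable D) {B : ℝ} (hDb : ∀ y, |D y| ≤ B)
    {x : EE n} {δ : ℝ} (hδ : ∀ h, ‖h‖ ≤ r → |D (x + ‖x‖ • h) - D x| ≤ δ) :
    |f1 ρ D x - D x| ≤ δ := by
  have h1 := int_rD hρ hDm hDb (meas_shift x ‖x‖)
  have e0 : ∫ h, ρ h * D x = D x := by rw [integral_mul_const, hρ.one, one_mul]
  have i0 : Integrable (fun h => ρ h * D x) := hρ.int.mul_const _
  have h2 : f1 ρ D x - D x ≤ δ := by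
    have h3 : ∫ h, ρ h * (D (x + ‖x‖ • h) - D x) ≤ δ := by
      refine avg_le hρ ?_ fun h hh => (abs_le.mp (hδ h hh)).2
      simp only [mul_sub]
      exact h1.sub i0
    simp only [mul_sub] at h3
    rw [integral_sub h1 i0, e0] at h3
    exact h3
  have h4 : D x - f1 ρ D x ≤ δ := by
    have h3 : ∫ h, ρ h * (D x - D (x + ‖x‖ • h)) ≤ δ := by
      refine avg_le hρ ?_ fun h hh => ?_
      · simp only [mul_sub]
        exact i0.sub h1
      · linarith [(abs_le.mp (hδ h hh)).1]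
    simp only [mul_sub] at h3
    rw [integral_sub i0 h1, e0] at h3
    exact h3
  rw [abs_le]
  constructor <;> linarith

lemma norm_add_perp {x v : EE n} (hx : ‖x‖ = 1) (hv : ∑ i, v i * x i = 0) {s : ℝ} (hs : 0 ≤ s) :
    1 ≤ ‖x + s • v‖ ∧ ‖x + s • v‖ - 1 ≤ s ^ 2 * ‖v‖ ^ 2 := by
  have h1 : ‖x + s • v‖ ^ 2 = 1 + s ^ 2 * ‖v‖ ^ 2 := by
    rw [← sum_sq_eq, ← sum_sq_eq v]
    have h2 : ∑ i, x i * x i = 1 := by rw [sum_sq_eq, hx, one_pow]
    calc ∑ i, (x + s • v) i * (x + s • v) i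
        = ∑ i, x i * x i + 2 * s * ∑ i, v i * x i + s ^ 2 * ∑ i, v i * v i := by
          simp only [PiLp.add_apply, PiLp.smul_apply, smul_eq_mul, Finset.mul_sum,
            ← Finset.sum_add_distrib]
          exact Finset.sum_congr rfl fun i _ => by ring
      _ = _ := by rw [h2, hv]; ring
  have h0 := norm_nonneg (x + s • v)
  have h3 : 0 ≤ s ^ 2 * ‖v‖ ^ 2 := by positivity
  have h4 : 1 ≤ ‖x + s • v‖ := by
    by_contra h
    push Not at h
    nlinarith
  refine ⟨h4, ?_⟩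
  nlinarith

lemma ip_pert {G : MF n} {C : ℝ} (hC0 : 0 < C) {x : EE n} (hC : ∀ i j, |G x i j| ≤ C) {v h : EE n} {τ s : ℝ}
    (hh : ‖h‖ ≤ 1) (hs0 : 0 ≤ s) (hs1 : s ≤ 1) (hτ0 : 0 ≤ τ) (hτ : τ ≤ s * ‖v‖ ^ 2) :
    ip G x (fun i => v i + τ * h i) (fun i => v i + τ * h i)
      ≤ ip G x (fun i => v i) (fun i => v i)
        + s * (((n : ℝ) + 1) ^ 2 * (C * (2 * ‖v‖ ^ 3 + ‖v‖ ^ 4))) := by
  have hv0 := norm_nonneg v
  have h1 : ∀ i j, G x i j * (v i + τ * h i) * (v j + τ * h j)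
      ≤ G x i j * v i * v j + s * (C * (2 * ‖v‖ ^ 3 + ‖v‖ ^ 4)) := by
    intro i j
    have e1 : G x i j * (v i + τ * h i) * (v j + τ * h j)
        = G x i j * v i * v j + τ * (G x i j * v i * h j) + τ * (G x i j * h i * v j)
          + τ ^ 2 * (G x i j * h i * h j) := by ring
    have hb : ∀ a b : ℝ, |a| ≤ ‖v‖ → |b| ≤ 1 → G x i j * a * b ≤ C * ‖v‖ := by
      intro a b ha hb
      have h3 : |G x i j * a * b| ≤ C * ‖v‖ * 1 := by
        rw [abs_mul, abs_mul]
        gcongr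
        exact hC i j
      have := le_abs_self (G x i j * a * b)
      linarith
    have hi := (coord_le h i).trans hh
    have hj := (coord_le h j).trans hh
    have t1 := hb (v i) (h j) (coord_le v i) hj
    have t2 : G x i j * h i * v j ≤ C * ‖v‖ := by
      have := hb (v j) (h i) (coord_le v j) hi
      linarith
    have t3 : G x i j * h i * h j ≤ C := by
      have h3 : |G x i j * h i * h j| ≤ C * 1 * 1 := by
        rw [abs_mul, abs_mul]
        gcongr
        exact hC i j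
      have := le_abs_self (G x i j * h i * h j)
      linarith
    have u1 := mul_le_mul_of_nonneg_left t1 hτ0
    have u2 := mul_le_mul_of_nonneg_left t2 hτ0
    have u3 := mul_le_mul_of_nonneg_left t3 (sq_nonneg τ)
    have w1 : τ * (C * ‖v‖) ≤ s * ‖v‖ ^ 2 * (C * ‖v‖) := by gcongr
    have w2 : τ ^ 2 * C ≤ s * ‖v‖ ^ 4 * C := by
      have : τ ^ 2 ≤ s * ‖v‖ ^ 4 := by
        have h5 : τ ^ 2 ≤ (s * ‖v‖ ^ 2) ^ 2 := by gcongr
        have h6 : (s * ‖v‖ ^ 2) ^ 2 = s * (s * ‖v‖ ^ 4) := by ring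
        have h7 : s * (s * ‖v‖ ^ 4) ≤ 1 * (s * ‖v‖ ^ 4) := by gcongr
        linarith
      exact mul_le_mul_of_nonneg_right this hC0.le
    rw [e1]
    nlinarith
  have h3 : ∑ i : Fin (n + 1), ∑ j : Fin (n + 1), (G x i j * v i * v j + s * (C * (2 * ‖v‖ ^ 3 + ‖v‖ ^ 4)))
      = ip G x (fun i => v i) (fun i => v i)
        + s * (((n : ℝ) + 1) ^ 2 * (C * (2 * ‖v‖ ^ 3 + ‖v‖ ^ 4))) := by
    simp only [Finset.sum_add_distrib, Finset.sum_const, Finset.card_univ, Fintype.card_fin,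
      nsmul_eq_mul]
    unfold ip
    push_cast
    ring
  rw [← h3]
  exact Finset.sum_le_sum fun i _ => Finset.sum_le_sum fun j _ => h1 i j

lemma grad {G : MF n} (hG : IsMetric G) (hD : DbdStmt) (hn1 : 1 ≤ n) {p : EE n} (hp : ‖p‖ = 1)
    {e η : ℝ} (he : 0 < e) (hη0 : 0 < η)
    (hη : η ≤ 1 / 2) (hmod : ∀ x y : EE n, ‖x‖ = 1 → ‖y - x‖ < η → ∀ v : EE n,
      ip G y (fun i => v i) (fun i => v i) ≤ (1 + e) * ip G x (fun i => v i) (fun i => v i))
    {ρ : EE n → ℝ} (hρ : Mol ρ (η / 4)) {x v : EE n} (hx : ‖x‖ = 1) (hv : ∑ i, v i * x i = 0)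
    (hdf : DifferentiableAt ℝ (f1 ρ (DD G p)) x) :
    fderiv ℝ (f1 ρ (DD G p)) x v
      ≤ (1 - η)⁻¹ * Real.sqrt ((1 + e) * ip G x (fun i => v i) (fun i => v i)) := by
  obtain ⟨C, hC0, hC⟩ := entries_bdd hG
  obtain ⟨B, hB0, hB⟩ := DD_bdd hG hD hn1 hp
  have hDm := DD_meas hG hD hn1 hp
  have hx0 : x ≠ 0 := by
    rintro rfl
    simp at hx
  set K := ((n : ℝ) + 1) ^ 2 * (C * (2 * ‖v‖ ^ 3 + ‖v‖ ^ 4)) with hK
  have hv0 := norm_nonneg v
  have hη1 : 0 < 1 - η := by linarith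
  set F := f1 ρ (DD G p) with hF
  have hderiv : HasDerivAt (fun s : ℝ => F (x + s • v)) (fderiv ℝ F x v) 0 := by
    have h1 : HasDerivAt (fun s : ℝ => x + s • v) v 0 := by
      have := ((hasDerivAt_id (0:ℝ)).smul_const v).const_add x
      rw [one_smul] at this
      exact this
    have h2 : HasFDerivAt F (fderiv ℝ F x) (x + (0:ℝ) • v) := by
      rw [zero_smul, add_zero]
      exact hdf.hasFDerivAt
    exact h2.comp_hasDerivAt (0:ℝ) h1
  rw [hasDerivAt_iff_tendsto_slope_zero] at hderiv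
  have hd2 := hderiv.mono_left (nhdsWithin_mono (0:ℝ) (show Set.Ioi (0:ℝ) ⊆ {0}ᶜ from fun s hs => ne_of_gt hs))
  have hlim : Filter.Tendsto (fun s : ℝ => (1 - η)⁻¹ * Real.sqrt ((1 + e) * (ip G x (fun i => v i) (fun i => v i) + s * K)))
      (nhdsWithin 0 (Set.Ioi 0))
      (nhds ((1 - η)⁻¹ * Real.sqrt ((1 + e) * ip G x (fun i => v i) (fun i => v i)))) := by
    have h1 : Continuous (fun s : ℝ => (1 - η)⁻¹ * Real.sqrt ((1 + e) * (ip G x (fun i => v i) (fun i => v i) + s * K))) := by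
      fun_prop
    have h2 := h1.tendsto 0
    simp only [zero_mul, add_zero] at h2
    exact h2.mono_left nhdsWithin_le_nhds
  refine le_of_tendsto_of_tendsto hd2 hlim ?_
  set s0 := min 1 (η / (4 * (‖v‖ + 1))) with hs0
  have hs0p : 0 < s0 := by
    apply lt_min one_pos
    positivity
  filter_upwards [Ioo_mem_nhdsGT hs0p] with s hs
  have hs1 : s ≤ 1 := hs.2.le.trans (min_le_left _ _)
  have hs2 : s * ‖v‖ ≤ η / 4 := by
    have h1 : s ≤ η / (4 * (‖v‖ + 1)) := hs.2.le.trans (min_le_right _ _)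
    have h2 : s * (‖v‖ + 1) ≤ η / (4 * (‖v‖ + 1)) * (‖v‖ + 1) := by gcongr
    have h3 : η / (4 * (‖v‖ + 1)) * (‖v‖ + 1) = η / 4 := by field_simp
    have := hs.1
    nlinarith
  have hs3 : 0 < s := hs.1
  simp only [zero_add, zero_smul, add_zero, smul_eq_mul]
  rw [inv_mul_le_iff₀ hs3]
  have hperp := norm_add_perp hx hv hs3.le
  apply f1_sub hρ hDm hB
  intro h hh
  set b := x + s • v + ‖x + s • v‖ • h with hb
  set a := x + ‖x‖ • h with ha
  have hh1 : ‖h‖ ≤ 1 := by linarith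
  have haη : ‖a - x‖ < η := by
    rw [ha, hx, one_smul, add_sub_cancel_left]
    linarith
  have hbη : ‖b - x‖ < η := by
    have e1 : b - x = s • v + ‖x + s • v‖ • h := by
      rw [hb]
      abel
    rw [e1]
    have h1 := norm_add_le (s • v) (‖x + s • v‖ • h)
    rw [norm_smul, norm_smul, norm_norm, Real.norm_of_nonneg hs3.le] at h1
    have h2 : ‖x + s • v‖ ≤ 1 + η / 4 := by
      have := norm_add_le x (s • v)
      rw [norm_smul, Real.norm_of_nonneg hs3.le, hx] at this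
      linarith
    have h3 : ‖x + s • v‖ * ‖h‖ ≤ (1 + η / 4) * (η / 4) := by
      have := norm_nonneg h
      gcongr
    nlinarith
  have hne : ∀ y : EE n, ‖y - x‖ < η → y ≠ 0 := by
    rintro y hy rfl
    rw [zero_sub, norm_neg, hx] at hy
    linarith
  have h1 := DD_sub hG hD hn1 hp (hne a haη) (hne b hbη)
  have h2 := chord hG hD hn1 he hη0 hη hmod hx haη hbη
  refine h1.trans (h2.trans ?_)
  set τ := (‖x + s • v‖ - 1) / s with hτ
  have hτ0 : 0 ≤ τ := div_nonneg (by linarith [hperp.1]) hs3.le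
  have hτ1 : τ ≤ s * ‖v‖ ^ 2 := by
    rw [hτ, div_le_iff₀ hs3]
    have := hperp.2
    nlinarith
  have e2 : (fun i => (b - a) i) = fun i => s * (v i + τ * h i) := by
    funext i
    have : s * (v i + τ * h i) = s * v i + (‖x + s • v‖ - 1) * h i := by
      rw [hτ]
      field_simp
    rw [this, hb, ha, hx]
    simp only [PiLp.sub_apply, PiLp.add_apply, PiLp.smul_apply, smul_eq_mul]
    ring
  rw [e2, ip_smul]
  have h3 := ip_pert hC0 (hC x hx0) hh1 hs3.le hs1 hτ0 hτ1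
  have h4 : Real.sqrt ((1 + e) * (s ^ 2 * ip G x (fun i => v i + τ * h i) (fun i => v i + τ * h i)))
      ≤ s * Real.sqrt ((1 + e) * (ip G x (fun i => v i) (fun i => v i) + s * K)) := by
    have e3 : (1 + e) * (s ^ 2 * ip G x (fun i => v i + τ * h i) (fun i => v i + τ * h i))
        = s ^ 2 * ((1 + e) * ip G x (fun i => v i + τ * h i) (fun i => v i + τ * h i)) := by ring
    rw [e3, Real.sqrt_mul (sq_nonneg s), Real.sqrt_sq hs3.le]
    gcongr
  calc (1 - η)⁻¹ * Real.sqrt ((1 + e) * (s ^ 2 * ip G x (fun i => v i + τ * h i) (fun i => v i + τ * h i)))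
      ≤ (1 - η)⁻¹ * (s * Real.sqrt ((1 + e) * (ip G x (fun i => v i) (fun i => v i) + s * K))) := by gcongr
    _ = _ := by ring

/-! ### assembly -/

lemma fderiv_eq_sum (f : EE n → ℝ) (x v : EE n) : fderiv ℝ f x v = ∑ i, v i * pd i f x := by
  have h1 : v = ∑ i, v i • (EuclideanSpace.single i (1:ℝ) : EE n) := by
    ext j
    simp only [WithLp.ofLp_sum, WithLp.ofLp_smul, Finset.sum_apply, Pi.smul_apply, smul_eq_mul]
    simp [Pi.single_apply]
  conv_lhs => rw [h1]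
  rw [map_sum]
  refine Finset.sum_congr rfl fun i _ => ?_
  rw [map_smul, smul_eq_mul]
  rfl

lemma euler {f : EE n → ℝ} (hf : Sm f) {x : EE n} (hx : x ≠ 0) : fderiv ℝ f x x = 0 := by
  have hd : DifferentiableAt ℝ f x :=
    (hf.cd.contDiffAt (isOpen_compl_singleton.mem_nhds hx)).differentiableAt (by simp)
  have h1 : HasDerivAt (fun s : ℝ => x + s • x) x 0 := by
    have := ((hasDerivAt_id (0:ℝ)).smul_const x).const_add x
    rw [one_smul] at this
    exact this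
  have h2 : HasFDerivAt f (fderiv ℝ f x) (x + (0:ℝ) • x) := by
    rw [zero_smul, add_zero]
    exact hd.hasFDerivAt
  have h3 := h2.comp_hasDerivAt (0:ℝ) h1
  have h4 : HasDerivAt (f ∘ fun s : ℝ => x + s • x) 0 0 := by
    refine (hasDerivAt_const (0:ℝ) (f x)).congr_of_eventuallyEq ?_
    filter_upwards [Ioi_mem_nhds (show (-1:ℝ) < 0 by norm_num)] with s hs
    have hs' : 0 < 1 + s := by
      have : -1 < s := hs
      linarith
    have e : x + s • x = (1 + s) • x := by module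
    show f (x + s • x) = f x
    rw [e, hf.hom _ _ hs']
  exact h3.unique h4

lemma grad2 {G : MF n} (h6 : Goal_C6) (hG : IsMetric G) {f : EE n → ℝ} (hf : Sm f) {x : EE n} (hx : ‖x‖ = 1)
    {L : ℝ} (hL : 0 ≤ L) (hv : ∀ v : EE n, ∑ i, v i * x i = 0 →
      fderiv ℝ f x v ≤ L * Real.sqrt (ip G x (fun i => v i) (fun i => v i))) :
    ∑ i, ∑ j, (G x)⁻¹ i j * ed i f x * ed j f x ≤ L ^ 2 := by
  have hx0 : x ≠ 0 := by
    rintro rfl
    simp at hx
  obtain ⟨-, -, -, -, hinv, hsym⟩ := h6 n G hG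
  have hinv' : (G x)⁻¹ * G x = 1 := mul_eq_one_comm.mp (hinv x)
  set v : EE n := WithLp.toLp 2 (fun i => ∑ j, (G x)⁻¹ i j * ed j f x) with hvdef
  have hvi : ∀ i, v i = ∑ j, (G x)⁻¹ i j * ed j f x := fun i => rfl
  have hed : ∀ i, ed i f x = pd i f x := fun i => by
    unfold ed
    rw [hx, one_mul]
  have hGx : ∀ j, ∑ i, (G x)⁻¹ i j * x i = x j := by
    intro j
    have h1 : (G x)⁻¹.mulVec (fun i => x i) = fun i => x i := by
      have h2 : (G x).mulVec (fun i => x i) = fun i => x i := by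
        funext i
        exact hG.rad x i
      conv_lhs => rw [← h2]
      rw [Matrix.mulVec_mulVec, hinv', Matrix.one_mulVec]
    have h3 := congrFun h1 j
    simp only [Matrix.mulVec, dotProduct] at h3
    rw [← h3]
    exact Finset.sum_congr rfl fun i _ => by rw [hsym x i j]
  have hperp : ∑ i, v i * x i = 0 := by
    simp only [hvi, Finset.sum_mul]
    rw [Finset.sum_comm]
    have e1 : ∑ j, ∑ i, (G x)⁻¹ i j * ed j f x * x i = ∑ j, x j * pd j f x := by
      refine Finset.sum_congr rfl fun j _ => ?_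
      rw [show x j * pd j f x = ed j f x * ∑ i, (G x)⁻¹ i j * x i by rw [hGx, hed]; ring, Finset.mul_sum]
      exact Finset.sum_congr rfl fun i _ => by ring
    rw [e1, ← fderiv_eq_sum, euler hf hx0]
  have hA : fderiv ℝ f x v = ∑ i, ∑ j, (G x)⁻¹ i j * ed i f x * ed j f x := by
    rw [fderiv_eq_sum]
    refine Finset.sum_congr rfl fun i _ => ?_
    rw [hvi, ← hed, Finset.sum_mul]
    exact Finset.sum_congr rfl fun j _ => by ring
  have hGv : ∀ i, ∑ j, G x i j * v j = ed i f x := by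
    intro i
    have h1 : (G x).mulVec ((G x)⁻¹.mulVec fun j => ed j f x) = fun j => ed j f x := by
      rw [Matrix.mulVec_mulVec, hinv, Matrix.one_mulVec]
    have h3 := congrFun h1 i
    simp only [Matrix.mulVec, dotProduct] at h3
    exact h3
  have hB : ip G x (fun i => v i) (fun i => v i) = ∑ i, ∑ j, (G x)⁻¹ i j * ed i f x * ed j f x := by
    rw [← hA, fderiv_eq_sum]
    unfold ip
    refine Finset.sum_congr rfl fun i _ => ?_
    rw [← hed, ← hGv i, Finset.mul_sum]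
    exact Finset.sum_congr rfl fun j _ => by ring
  have h1 := hv v hperp
  rw [hA, hB] at h1
  have h0 : 0 ≤ ∑ i, ∑ j, (G x)⁻¹ i j * ed i f x * ed j f x := by
    rw [← hB]
    exact ip_nonneg hG x _
  set A := ∑ i, ∑ j, (G x)⁻¹ i j * ed i f x * ed j f x with hAdef
  have h2 := Real.sq_sqrt h0
  have h3 := Real.sqrt_nonneg A
  rcases eq_or_lt_of_le h3 with h | h
  · rw [← h] at h2
    have : 0 ≤ L ^ 2 := sq_nonneg L
    linarith
  · have h4 : Real.sqrt A ≤ L := by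
      by_contra h5
      push Not at h5
      nlinarith
    rw [← h2]
    gcongr

/-- PACKET SMO -/
theorem smo (hD : DbdStmt) (h1 : Goal_C1) (h6 : Goal_C6) : SmoStmt := by
  intro n G p ε hn1 hG hp hε
  obtain ⟨B, hB0, hB⟩ := DD_bdd hG hD hn1 hp
  obtain ⟨C, hC0, hC⟩ := DD_cont hG hD hn1 hp
  have hDm := DD_meas hG hD hn1 hp
  set e : ℝ := ε / (4 * (B + 1)) with he
  have he0 : 0 < e := by positivity
  obtain ⟨η0, hη00, hη0h, hmod0⟩ := modulus hG he0
  set η : ℝ := min η0 (min e (ε / (C + 1))) with hη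
  have hη1 : 0 < η := lt_min hη00 (lt_min he0 (by positivity))
  have hηh : η ≤ 1 / 2 := (min_le_left _ _).trans hη0h
  have hηe : η ≤ e := (min_le_right _ _).trans (min_le_left _ _)
  have hηC : η ≤ ε / (C + 1) := (min_le_right _ _).trans (min_le_right _ _)
  have hmod : ∀ x y : EE n, ‖x‖ = 1 → ‖y - x‖ < η → ∀ v : EE n,
      ip G y (fun i => v i) (fun i => v i) ≤ (1 + e) * ip G x (fun i => v i) (fun i => v i) :=
    fun x y hx hy v => hmod0 x y hx (hy.trans_le (min_le_left _ _)) v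
  obtain ⟨ρ, hρ⟩ := exists_mol (n := n) (show 0 < η / 4 by positivity)
  set F := f1 ρ (DD G p) with hF
  have hDloc : LocallyIntegrable (DD G p) volume := by
    refine (locallyIntegrable_const (B : ℝ)).mono hDm.aestronglyMeasurable
      (Filter.Eventually.of_forall fun y => ?_)
    rw [Real.norm_eq_abs, Real.norm_of_nonneg hB0]
    exact hB y
  have hSm : Sm F := ⟨f1_smooth hρ.sm (show 0 < η / 4 by positivity) hρ.supp hDloc,
    f1_hom fun r hr y => DD_hom G p hr y⟩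
  set L : ℝ := (1 - η)⁻¹ * Real.sqrt (1 + e) with hL
  have hη2 : 0 < 1 - η := by linarith
  have hsq : 1 ≤ Real.sqrt (1 + e) := by
    rw [Real.one_le_sqrt]
    linarith
  have hsq2 : Real.sqrt (1 + e) ≤ 1 + e := by
    rw [Real.sqrt_le_left (by linarith)]
    nlinarith
  have hL0 : 0 < L := by
    rw [hL]
    have := inv_pos.mpr hη2
    positivity
  have hL1 : L⁻¹ ≤ 1 := by
    rw [hL, mul_inv, inv_inv]
    have h2 : (Real.sqrt (1 + e))⁻¹ ≤ 1 := inv_le_one_of_one_le₀ hsq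
    have h3 : 0 ≤ (Real.sqrt (1 + e))⁻¹ := by positivity
    nlinarith
  have hL2 : 1 - L⁻¹ ≤ η + e := by
    rw [hL, mul_inv, inv_inv]
    have h2 : 1 - e ≤ (Real.sqrt (1 + e))⁻¹ := by
      have h3 : (1 + e)⁻¹ ≤ (Real.sqrt (1 + e))⁻¹ := inv_anti₀ (by linarith) hsq2
      have h4 : 1 - e ≤ (1 + e)⁻¹ := by
        rw [← one_div, le_div_iff₀ (by linarith)]
        nlinarith
      linarith
    nlinarith
  refine ⟨fun x => L⁻¹ * F x, (h1 n).2.2.2.1 _ _ ((h1 n).1 _) hSm, fun x hx => ?_, fun x hx => ?_⟩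
  · have hdf : ∀ y : EE n, y ≠ 0 → DifferentiableAt ℝ F y := fun y hy =>
      (hSm.cd.contDiffAt (isOpen_compl_singleton.mem_nhds hy)).differentiableAt (by simp)
    have hed : ∀ i, ed i (fun y => L⁻¹ * F y) x = L⁻¹ * ed i F x := by
      intro i
      unfold ed pd
      rw [fderiv_const_mul (hdf x hx)]
      simp only [_root_.smul_apply, smul_eq_mul]
      ring
    simp only [hed]
    have hN := norm_N hx
    have hkey : ∑ i, ∑ j, (G (N x))⁻¹ i j * ed i F (N x) * ed j F (N x) ≤ L ^ 2 := by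
      refine grad2 h6 hG hSm hN hL0.le fun v hv => ?_
      have hN0 : N x ≠ 0 := by
        intro h
        rw [h, norm_zero] at hN
        exact zero_ne_one hN
      have h2 := grad hG hD hn1 hp he0 hη1 hηh hmod hρ hN hv (hdf _ hN0)
      rw [Real.sqrt_mul (by linarith)] at h2
      rw [hL]
      linarith
    have hnx : 0 < ‖x‖⁻¹ := inv_pos.mpr (norm_pos_iff.mpr hx)
    have g1 : ∀ i j, (G (N x))⁻¹ i j = (G x)⁻¹ i j := fun i j =>
      ((h6 n G hG).2.2.2.1 i j).hom _ x hnx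
    have g2 : ∀ i, ed i F (N x) = ed i F x := fun i =>
      ((h1 n).2.2.2.2.2.2.2.2.1 F i hSm).hom _ x hnx
    simp only [g1, g2] at hkey
    have e1 : ∑ i, ∑ j, (G x)⁻¹ i j * (L⁻¹ * ed i F x) * (L⁻¹ * ed j F x)
        = L⁻¹ ^ 2 * ∑ i, ∑ j, (G x)⁻¹ i j * ed i F x * ed j F x := by
      simp only [Finset.mul_sum]
      exact Finset.sum_congr rfl fun i _ => Finset.sum_congr rfl fun j _ => by ring
    rw [e1]
    have h3 : L⁻¹ ^ 2 * ∑ i, ∑ j, (G x)⁻¹ i j * ed i F x * ed j F x ≤ L⁻¹ ^ 2 * L ^ 2 := by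
      gcongr
    refine h3.trans (le_of_eq ?_)
    rw [← mul_pow, inv_mul_cancel₀ hL0.ne', one_pow]
  · have hx0 : x ≠ 0 := by
      rintro rfl
      simp at hx
    have hDx : gdist G p x = DD G p x := by
      unfold DD
      rw [N_unit hx]
    rw [hDx]
    have h2 : |F x - DD G p x| ≤ ε / 2 := by
      refine f1_close hρ hDm hB fun h hh => ?_
      have hxh : x + ‖x‖ • h ≠ 0 := by
        intro h0
        rw [hx, one_smul] at h0
        have h3 : x = -h := eq_neg_of_add_eq_zero_left h0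
        rw [h3, norm_neg] at hx
        linarith
      refine (hC x (x + ‖x‖ • h) hx0 hxh).trans ?_
      have h3 := N_sub hx0 hxh
      have h4 : ‖x - (x + ‖x‖ • h)‖ = ‖h‖ := by
        rw [hx, one_smul, sub_add_cancel_left, norm_neg]
      have h3' : ‖N x - N (x + ‖x‖ • h)‖ ≤ 2 * (η / 4) := by
        rw [h4] at h3
        have : 2 * ‖x‖⁻¹ * ‖h‖ = 2 * ‖h‖ := by rw [hx]; ring
        linarith
      have h5 : C * ‖N x - N (x + ‖x‖ • h)‖ ≤ C * (2 * (η / 4)) := by
        gcongr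
      have h6 : C * η ≤ ε := by
        have h7 : C * η ≤ C * (ε / (C + 1)) := by gcongr
        have h8 : C * (ε / (C + 1)) ≤ ε := by
          rw [← mul_div_assoc, div_le_iff₀ (by linarith)]
          nlinarith
        linarith
      linarith
    have h3 : |L⁻¹ * F x - F x| ≤ ε / 2 := by
      have h4 := f1_bdd hρ hDm hB x
      have e1 : L⁻¹ * F x - F x = -((1 - L⁻¹) * F x) := by ring
      rw [e1, abs_neg, abs_mul, abs_of_nonneg (by linarith : 0 ≤ 1 - L⁻¹)]
      have h5 : (1 - L⁻¹) * |F x| ≤ (η + e) * B := by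
        apply mul_le_mul hL2 h4 (abs_nonneg _) (by linarith)
      have h6 : (η + e) * B ≤ (2 * e) * (B + 1) := by
        have : (η + e) * B ≤ (2 * e) * B := by
          apply mul_le_mul_of_nonneg_right _ hB0
          linarith
        nlinarith
      have h7 : 2 * e * (B + 1) = ε / 2 := by
        rw [he]
        field_simp
        norm_num
      linarith
    have h4 := abs_add_le (L⁻¹ * F x - F x) (F x - DD G p x)
    rw [sub_add_sub_cancel] at h4
    linarith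

end Pool.Agent.Helper32.RFn.SMO
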