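import Pool.Agent.Helper47.RFn.Alg

/-!
# Project RFn, packet G2: the second family of good parameters
-/

set_option autoImplicit false

open Finset

namespace Pool.Agent.Helper47.RFn

namespace G2x

theorem wdg_comm {n : ℕ} (A B : M2 n) : wdg A B = wdg B A := by
  funext a b c d
  simp only [wdg]
  ring

theorem wdg_add_sq {n : ℕ} (A : M2 n) (l : ℝ) :
    wdg (A + l • (1 : M2 n)) (A + l • (1 : M2 n))
      = wdg A A + (2 * l) • wdg A 1 + (l ^ 2) • Id4 n := by
  funext a b c d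
  simp only [wdg, Id4, Matrix.add_apply, Matrix.smul_apply, Pi.add_apply, Pi.smul_apply,
    smul_eq_mul]
  ring

theorem Ric_eq {n : ℕ} (R : T4 n) : Ric R = Ric0 R + lam R • (1 : M2 n) := by
  unfold Ric0
  rw [sub_add_cancel]

/-- the tensor `D` for `a = b = 1/2` -/
theorem D_eq {n : ℕ} (R : T4 n) :
    Dab (1 / 2) (1 / 2) R = (((n : ℝ) + 2) / 4) • wdg (Ric0 R) (Ric0 R)
      + (2 * lam R) • wdg (Ric0 R) 1 + (1 / 2 : ℝ) • wdg (Ric0 R * Ric0 R) 1
      + (lam R ^ 2) • Id4 n := by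
  have h1 := wdg_add_sq (Ric0 R) (lam R)
  rw [← Ric_eq] at h1
  unfold Dab
  rw [h1]
  funext a b c d
  simp only [Pi.add_apply, Pi.smul_apply, smul_eq_mul]
  ring

theorem sum_sq {n : ℕ} (hn : 1 ≤ n) (R : T4 n) (h : (Ric0 R).IsSymm) :
    ∑ a, (Ric0 R * Ric0 R) a a = n * sig R := by
  have hn0 : (n : ℝ) ≠ 0 := by positivity
  unfold sig
  rw [mul_div_cancel₀ _ hn0]
  refine Finset.sum_congr rfl fun a _ => ?_
  rw [Matrix.mul_apply]
  refine Finset.sum_congr rfl fun b _ => ?_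
  have := h.apply a b
  rw [this]
  ring

end G2x

open G2x

theorem goal_G2 (hDG : Goal_DG) (hRB : Goal_RB) (hDF : Goal_DF) (hEV : Goal_EV) (hCB : Goal_CB)
    (hQB : Goal_QB) (hWQ : Goal_WQ) (hLN : Goal_LN) (hCL : Goal_CL) : Goal_G2 := by
  intro n hn
  have hn4 : (4:ℝ) ≤ n := by exact_mod_cast hn
  have hp1n : p1 n < 1 := by
    unfold p1
    rw [max_lt_iff]
    refine ⟨by norm_num, ?_⟩
    rw [div_lt_one (by linarith)]
    linarith
  obtain ⟨η, hη⟩ : ∃ η, η = 1 - p1 n := ⟨_, rfl⟩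
  have hη0 : 0 < η := by linarith
  have hc1 : 0 < ((n:ℝ) - 2) / ((n:ℝ) + 2) := div_pos (by linarith) (by linarith)
  refine ⟨min (((n:ℝ) - 2) / ((n:ℝ) + 2)) (η ^ 3 / 4), lt_min hc1 (by positivity), ?_⟩
  intro p hp hpp
  have hp0 : 0 ≤ p := hc1.le.trans hp
  have hplt : p < 1 := lt_of_le_of_lt hpp hp1n
  obtain ⟨hL1, hL2, hL3, hL4, hL5, hL6, hL7, hL8, hL9, hL10, hL11, hL12, hL13, hL14⟩ := hLN n
  obtain ⟨_, _, _, _, _, _, hC7, _, _⟩ := hCL n
  have hpn : 1 - p ≤ 4 / ((n:ℝ) + 2) := by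
    rw [le_div_iff₀ (by linarith)]
    rw [div_le_iff₀ (by linarith)] at hp
    linarith
  refine ⟨by norm_num, by norm_num, hp0, hplt, lt_min hc1 (by positivity), ?_, ?_⟩
  · intro S hS hR z w
    have hlam := (hCB n (by omega) S hS).1
    have hsym : (Ric0 S).IsSymm := (hC7 S hS.1).2
    have hI : 0 ≤ qf (Id4 n) z w := by
      have := hWQ n (1 : M2 n) 1 1 Matrix.isSymm_one (fun v => by rw [hL14]; linarith)
        (fun v => by rw [hL14]; linarith) z w
      exact this.1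
    obtain ⟨_, hev⟩ := hEV n (by omega) p S hS.1 hp0 hplt hlam hR
    rw [D_eq]
    refine le_trans ?_ (hDG n (Ric0 S) (((n : ℝ) + 2) / 4) (2 * lam S) (1 / 2) (lam S ^ 2)
      (((n:ℝ) - 2) / ((n:ℝ) + 2) * lam S ^ 2) hsym ?_ z w)
    · have : min (((n:ℝ) - 2) / ((n:ℝ) + 2)) (η ^ 3 / 4) ≤ ((n:ℝ) - 2) / ((n:ℝ) + 2) :=
        min_le_left _ _
      gcongr
    · intro u v x y hu hv _ hux hvy
      have hx := hev u x hu hux
      have hy := hev v y hv hvy
      have h4 : (1 - p) * lam S ≤ 4 / ((n:ℝ) + 2) * lam S := by gcongr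
      have hx1 : 0 ≤ x + 4 / ((n:ℝ) + 2) * lam S := by linarith
      have hy1 : 0 ≤ y + 4 / ((n:ℝ) + 2) * lam S := by linarith
      have h5 : 0 ≤ (((n:ℝ) + 2) / 4) * ((x + 4 / ((n:ℝ) + 2) * lam S)
          * (y + 4 / ((n:ℝ) + 2) * lam S)) := by positivity
      have h6 : (((n:ℝ) + 2) / 4) * ((x + 4 / ((n:ℝ) + 2) * lam S)
          * (y + 4 / ((n:ℝ) + 2) * lam S))
          = ((n:ℝ) + 2) / 4 * (x * y) + lam S * (x + y) + 4 / ((n:ℝ) + 2) * lam S ^ 2 := by
        have : (n:ℝ) + 2 ≠ 0 := by linarith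
        field_simp
        ring
      have h7 : ((n:ℝ) - 2) / ((n:ℝ) + 2) = 1 - 4 / ((n:ℝ) + 2) := by
        have : (n:ℝ) + 2 ≠ 0 := by linarith
        field_simp
        ring
      rw [h7]
      nlinarith [sq_nonneg x, sq_nonneg y]
  · intro S hS hR v hv
    have hlam := (hCB n (by omega) S hS).1
    have hsym : (Ric0 S).IsSymm := (hC7 S hS.1).2
    obtain ⟨hr1, hr2, hr3, hr4⟩ := hRB n (by omega) p S hp0 hplt hS hR v hv
    obtain ⟨_, hD2⟩ := hDF n (by omega) (1 / 2) (1 / 2) (by norm_num) (by norm_num) S hS.1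
    have hn0 : (n:ℝ) ≠ 0 := by linarith
    have hD3 : Ric (Dab (1 / 2) (1 / 2) S) = (-1 : ℝ) • (Ric0 S * Ric0 S)
        + (((n : ℝ) - 2) * lam S) • Ric0 S
        + (((n : ℝ) - 1) * lam S ^ 2 + n * sig S / 4) • (1 : M2 n) := by
      rw [hD2]
      congr 1
      · congr 1
        · congr 1
          norm_num
        · congr 1
          ring
      · congr 1
        have h11 : (1 + 2 * ((n : ℝ) - 1) * (1 / 2)) = n := by ring
        rw [h11]
        field_simp
        ring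
    have hq : lam (Q S) = lam S ^ 2 + sig S := (hQB n).2.2.2.2.2.2 S hS.1 (by omega)
    have hlD : lam (Dab (1 / 2) (1 / 2) S) = -sig S + (((n : ℝ) - 1) * lam S ^ 2 + n * sig S / 4) := by
      have h1 : lam (Dab (1 / 2) (1 / 2) S) = (∑ a, Ric (Dab (1 / 2) (1 / 2) S) a a) / n := rfl
      rw [h1, hD3]
      simp only [Matrix.add_apply, Matrix.smul_apply, smul_eq_mul, Matrix.one_apply_eq, mul_one]
      rw [Finset.sum_add_distrib, Finset.sum_add_distrib, ← Finset.mul_sum, ← Finset.mul_sum,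
        sum_sq (by omega) S hsym]
      have h2 : ∑ a, Ric0 S a a = 0 := hL11 S (by omega)
      rw [h2]
      simp only [Finset.sum_const, Finset.card_univ, Fintype.card_fin, nsmul_eq_mul]
      field_simp
      ring
    have hrD : rq (Ric (Dab (1 / 2) (1 / 2) S)) v = (-(1 - p) ^ 2 * lam S ^ 2
        - ((n : ℝ) - 2) * (1 - p) * lam S ^ 2
        + (((n : ℝ) - 1) * lam S ^ 2 + n * sig S / 4)) * nrm v := by
      rw [hD3, hL12, hL12, hL13, hL13, hL13, hL14, hr3, hr4]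
      ring
    rw [hL3, hL12, hL5, hq, hlD, hrD]
    rcases eq_or_ne v 0 with hv0 | hv0
    · have hnv : nrm v = 0 := by rw [hv0]; simp [nrm]
      rw [hnv] at hr1 ⊢
      simp only [mul_zero] at hr1 ⊢
      linarith
    · have hs := hr2 hv0
      have hnv : 0 ≤ nrm v := by unfold nrm; positivity
      have h1 : η ≤ 1 - p := by linarith
      have h2 : η ^ 3 ≤ (1 - p) ^ 3 := pow_le_pow_left₀ hη0.le h1 3
      have h3 : (1 - p) ^ 3 * lam S ^ 2 / 4 ≤ (1 - p) * (n * sig S / 4) := by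
        rw [div_le_iff₀ (by positivity)] at hs
        have h1p : 0 ≤ 1 - p := by linarith
        have := mul_le_mul_of_nonneg_left hs h1p
        linarith
      have h4 : min (((n:ℝ) - 2) / ((n:ℝ) + 2)) (η ^ 3 / 4) * lam S ^ 2
          ≤ (1 - p) ^ 3 * lam S ^ 2 / 4 := by
        have h5 : min (((n:ℝ) - 2) / ((n:ℝ) + 2)) (η ^ 3 / 4) ≤ (1 - p) ^ 3 / 4 :=
          (min_le_right _ _).trans (by linarith)
        have := mul_le_mul_of_nonneg_right h5 (sq_nonneg (lam S))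
        linarith
      have h6 := mul_le_mul_of_nonneg_right (h4.trans h3) hnv
      refine h6.trans ?_
      nlinarith [hr1]

end Pool.Agent.Helper47.RFn
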