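import Pool.Agent.Helper47.RFn.GoalsC

/-! PACKET RFn-LCR (MP_c98eff_gt, `n ≥ 4`, owner helper47): the Christoffel symbols in the frame `e_i` and in the
moving frame, general dimension. -/

set_option autoImplicit false

namespace Pool.Agent.Helper47.RFn

open Finset

namespace LCRAux

section
variable {n : ℕ} {𝒜 : Type} [CommRing 𝒜] [Algebra ℝ 𝒜] (e : Ix n → Derivation ℝ 𝒜 𝒜) (n0 : Ix n → 𝒜)
  (A θ : Ix n → Ix n → 𝒜)

lemma Fd_mul (a : Ix n) (f h : 𝒜) :
    FR.Fd e A a (f * h) = FR.Fd e A a f * h + f * FR.Fd e A a h := by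
  simp only [FR.Fd, Derivation.leibniz, smul_eq_mul, sum_mul, mul_sum, ← sum_add_distrib]
  exact sum_congr rfl fun i _ => by ring

lemma Fd_sum (a : Ix n) (f : Ix n → 𝒜) :
    FR.Fd e A a (∑ i, f i) = ∑ i, FR.Fd e A a (f i) := by
  simp only [FR.Fd, map_sum, mul_sum]
  rw [sum_comm]

lemma Fd_delta (a b c : Ix n) :
    FR.Fd e A a (if b = c then (1 : 𝒜) else 0) = 0 := by
  split_ifs <;> simp [FR.Fd]

omit [Algebra ℝ 𝒜] in
lemma g_symm (i j : Ix n) : FR.g θ i j = FR.g θ j i := by
  simp only [FR.g]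
  exact sum_congr rfl fun a _ => mul_comm _ _

/-- reorder: `∑ i ∑ j ∑ c = ∑ c ∑ i ∑ j` -/
lemma sum3 {M ι κ τ : Type*} [AddCommMonoid M] [Fintype ι] [Fintype κ] [Fintype τ] (f : ι → κ → τ → M) :
    ∑ i, ∑ j, ∑ c, f i j c = ∑ c, ∑ i, ∑ j, f i j c :=
  (sum_congr rfl fun _ _ => sum_comm).trans sum_comm

variable {e n0 A θ}

lemma AgA (hF : FrameHyp e n0 A θ) (a b : Ix n) :
    ∑ i, ∑ j, A a i * FR.g θ i j * A b j = if a = b then 1 else 0 := by
  have h1 : ∑ i, ∑ j, A a i * FR.g θ i j * A b j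
      = ∑ c, (∑ i, A a i * θ i c) * (∑ j, A b j * θ j c) := by
    simp only [FR.g, mul_sum, sum_mul]
    rw [sum3]
    refine sum_congr rfl fun c _ => ?_
    rw [sum_comm]
    exact sum_congr rfl fun i _ => sum_congr rfl fun j _ => by ring
  rw [h1]
  simp only [hF.At]
  simp

lemma gig (hF : FrameHyp e n0 A θ) (i j : Ix n) :
    ∑ k, FR.gi A i k * FR.g θ k j = if i = j then 1 else 0 := by
  have h1 : ∑ k, FR.gi A i k * FR.g θ k j
      = ∑ a, ∑ c, A a i * θ j c * (∑ k, A a k * θ k c) := by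
    simp only [FR.g, FR.gi, mul_sum, sum_mul]
    rw [sum3]
    refine sum_congr rfl fun a _ => ?_
    rw [sum_comm]
    exact sum_congr rfl fun i _ => sum_congr rfl fun j _ => by ring
  rw [h1]
  simp only [hF.At, mul_ite, mul_one, mul_zero, sum_ite_eq, mem_univ, if_true]
  have h2 := hF.tA j i
  rw [show (if i = j then (1 : 𝒜) else 0) = if j = i then 1 else 0 by simp only [eq_comm], ← h2]
  exact sum_congr rfl fun a _ => mul_comm _ _

lemma theta_eq (hF : FrameHyp e n0 A θ) (j c : Ix n) :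
    θ j c = ∑ k, FR.g θ j k * A c k := by
  have h1 : ∑ k, FR.g θ j k * A c k = ∑ d, θ j d * (∑ k, A c k * θ k d) := by
    simp only [FR.g, sum_mul, mul_sum]
    rw [sum_comm]
    exact sum_congr rfl fun i _ => sum_congr rfl fun j _ => by ring
  rw [h1]
  simp only [hF.At]
  simp

lemma git (hF : FrameHyp e n0 A θ) (m c : Ix n) :
    ∑ l, FR.gi A l m * θ l c = A c m := by
  have h1 : ∑ l, FR.gi A l m * θ l c = ∑ d, (∑ l, A d l * θ l c) * A d m := by
    simp only [FR.gi, sum_mul]
    rw [sum_comm]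
    exact sum_congr rfl fun i _ => sum_congr rfl fun j _ => by ring
  rw [h1]
  simp only [hF.At]
  simp

variable (e A θ)

/-- `P_abc` -/
def PP (a b c : Ix n) : 𝒜 := ∑ j, FR.Fd e A a (A b j) * θ j c

/-- lowered Christoffel symbols -/
noncomputable def KL (n0 : Ix n → 𝒜) (i j m : Ix n) : 𝒜 :=
  algebraMap ℝ 𝒜 (1 / 2) * (e i (FR.g θ j m) + e j (FR.g θ i m) - e m (FR.g θ i j))
    + n0 m * FR.g θ i j - n0 j * FR.g θ i m

variable {e A θ}

lemma D3 (hF : FrameHyp e n0 A θ) (a b c : Ix n) :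
    ∑ j, ∑ k, A b j * A c k * FR.Fd e A a (FR.g θ j k) = -PP e A θ a b c - PP e A θ a c b := by
  have h1 := congrArg (FR.Fd e A a) (AgA hF b c)
  rw [Fd_delta] at h1
  simp only [Fd_sum, Fd_mul] at h1
  have e1 : PP e A θ a b c = ∑ j, ∑ k, FR.Fd e A a (A b j) * FR.g θ j k * A c k := by
    unfold PP
    refine sum_congr rfl fun j _ => ?_
    rw [theta_eq hF j c, mul_sum]
    exact sum_congr rfl fun k _ => by ring
  have e2 : PP e A θ a c b = ∑ j, ∑ k, A b j * FR.g θ j k * FR.Fd e A a (A c k) := by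
    unfold PP
    rw [sum_comm]
    refine sum_congr rfl fun j _ => ?_
    rw [theta_eq hF j b, mul_sum]
    exact sum_congr rfl fun k _ => by rw [g_symm θ j k]; ring
  rw [e1, e2, eq_sub_iff_add_eq, eq_neg_iff_add_eq_zero, ← h1]
  simp only [← sum_add_distrib]
  exact sum_congr rfl fun i _ => sum_congr rfl fun j _ => by ring

lemma C_eq (a b c : Ix n) :
    FR.C e n0 A θ a b c = PP e A θ a b c - PP e A θ b a c
      + (FR.nf n0 A a * (if b = c then 1 else 0) - FR.nf n0 A b * (if a = c then 1 else 0)) := by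
  unfold FR.C PP
  rw [← sum_sub_distrib]
  congr 1
  exact sum_congr rfl fun j _ => by ring

lemma g2 (hF : FrameHyp e n0 A θ) (a b c : Ix n) (f : Ix n → 𝒜) :
    ∑ i, ∑ j, ∑ m, A a i * A b j * A c m * (f m * FR.g θ i j)
      = (∑ m, A c m * f m) * (if a = b then 1 else 0) := by
  rw [← AgA hF a b, sum3, sum_mul]
  refine sum_congr rfl fun m _ => ?_
  rw [mul_sum]
  refine sum_congr rfl fun i _ => ?_
  rw [mul_sum]
  exact sum_congr rfl fun j _ => by ring

lemma AAAKL (hF : FrameHyp e n0 A θ) (a b c : Ix n) :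
    ∑ i, ∑ j, ∑ k, A a i * A b j * A c k * KL e θ n0 i j k
      = algebraMap ℝ 𝒜 (1 / 2) * (-PP e A θ a b c - PP e A θ a c b - PP e A θ b a c
        - PP e A θ b c a + PP e A θ c a b + PP e A θ c b a)
        + (FR.nf n0 A c * (if a = b then 1 else 0) - FR.nf n0 A b * (if a = c then 1 else 0)) := by
  have d1 := D3 hF a b c
  have d2 := D3 hF b a c
  have d3 := D3 hF c a b
  have t1 : ∑ i, ∑ j, ∑ k, A a i * A b j * A c k * e i (FR.g θ j k)
      = ∑ j, ∑ k, A b j * A c k * FR.Fd e A a (FR.g θ j k) := by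
    rw [← sum3 (fun j k i => A a i * A b j * A c k * e i (FR.g θ j k))]
    refine sum_congr rfl fun j _ => sum_congr rfl fun k _ => ?_
    rw [FR.Fd, mul_sum]
    exact sum_congr rfl fun i _ => by ring
  have t2 : ∑ i, ∑ j, ∑ k, A a i * A b j * A c k * e j (FR.g θ i k)
      = ∑ i, ∑ k, A a i * A c k * FR.Fd e A b (FR.g θ i k) := by
    refine sum_congr rfl fun i _ => ?_
    rw [sum_comm]
    refine sum_congr rfl fun k _ => ?_
    rw [FR.Fd, mul_sum]
    exact sum_congr rfl fun i _ => by ring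
  have t3 : ∑ i, ∑ j, ∑ k, A a i * A b j * A c k * e k (FR.g θ i j)
      = ∑ i, ∑ j, A a i * A b j * FR.Fd e A c (FR.g θ i j) := by
    refine sum_congr rfl fun i _ => sum_congr rfl fun j _ => ?_
    rw [FR.Fd, mul_sum]
    exact sum_congr rfl fun i _ => by ring
  have t4 := g2 hF a b c n0
  have t5 : ∑ i, ∑ j, ∑ k, A a i * A b j * A c k * (n0 j * FR.g θ i k)
      = (∑ m, A b m * n0 m) * (if a = c then 1 else 0) := by
    rw [← g2 hF a c b n0]
    refine sum_congr rfl fun i _ => ?_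
    rw [sum_comm]
    exact sum_congr rfl fun i _ => sum_congr rfl fun j _ => by ring
  have h1 : ∑ i, ∑ j, ∑ k, A a i * A b j * A c k * KL e θ n0 i j k
      = algebraMap ℝ 𝒜 (1 / 2) * ((∑ i, ∑ j, ∑ k, A a i * A b j * A c k * e i (FR.g θ j k))
        + (∑ i, ∑ j, ∑ k, A a i * A b j * A c k * e j (FR.g θ i k))
        - (∑ i, ∑ j, ∑ k, A a i * A b j * A c k * e k (FR.g θ i j)))
        + ((∑ i, ∑ j, ∑ k, A a i * A b j * A c k * (n0 k * FR.g θ i j))
        - (∑ i, ∑ j, ∑ k, A a i * A b j * A c k * (n0 j * FR.g θ i k))) := by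
    simp only [KL, ← sum_add_distrib, ← sum_sub_distrib, mul_sum]
    exact sum_congr rfl fun i _ => sum_congr rfl fun j _ => sum_congr rfl fun k _ => by ring
  rw [h1, t1, t2, t3, t4, t5, d1, d2, d3]
  simp only [FR.nf]
  ring

lemma Gam_eq (hF : FrameHyp e n0 A θ) (a b c : Ix n) :
    PP e A θ a b c + ∑ i, ∑ j, ∑ k, A a i * A b j * A c k * KL e θ n0 i j k
      = FR.Gam e n0 A θ a b c := by
  have h2 : algebraMap ℝ 𝒜 (1 / 2) * 2 = 1 := by
    rw [← map_ofNat (algebraMap ℝ 𝒜) 2, ← map_mul]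
    norm_num
  rw [AAAKL hF]
  simp only [FR.Gam, Algebra.smul_def]
  rw [C_eq, C_eq, C_eq]
  have s1 : (if c = a then (1 : 𝒜) else 0) = if a = c then 1 else 0 := by simp only [eq_comm]
  have s2 : (if b = a then (1 : 𝒜) else 0) = if a = b then 1 else 0 := by simp only [eq_comm]
  have s3 : (if c = b then (1 : 𝒜) else 0) = if b = c then 1 else 0 := by simp only [eq_comm]
  rw [s1, s2, s3]
  linear_combination (-PP e A θ a b c - (FR.nf n0 A c * (if a = b then 1 else 0)
    - FR.nf n0 A b * (if a = c then 1 else 0))) * h2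

end

end LCRAux

open LCRAux in
theorem goal_LCR (_hFRA : Goal_FRA) : Goal_LCR := by
  intro n 𝒜 _ _ e n0 A θ hF
  refine ⟨fun a b l => ?_, gig hF, AgA hF, fun i j k => ?_⟩
  · set X : Ix n → 𝒜 := fun l => FR.Fd e A a (A b l)
      + ∑ i, ∑ j, A a i * A b j * FR.KE e n0 A θ i j l with hX
    have h1 : ∀ c, ∑ l, X l * θ l c = FR.Gam e n0 A θ a b c := by
      intro c
      rw [← Gam_eq hF]
      simp only [hX, add_mul, sum_add_distrib]
      congr 1
      have e0 : ∀ i j, ∑ l, FR.KE e n0 A θ i j l * θ l c = ∑ m, A c m * KL e θ n0 i j m := by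
        intro i j
        have q1 : ∀ f : Ix n → 𝒜, ∑ l, (∑ m, FR.gi A l m * f m) * θ l c = ∑ m, A c m * f m := by
          intro f
          simp only [sum_mul]
          rw [sum_comm]
          refine sum_congr rfl fun m _ => ?_
          rw [← git hF m c, sum_mul]
          exact sum_congr rfl fun l _ => by ring
        have q2 : ∑ l, n0 j * (if i = l then 1 else 0) * θ l c = n0 j * θ i c := by
          simp
        have q3 := q1 (fun m => e i (FR.g θ j m) + e j (FR.g θ i m) - e m (FR.g θ i j))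
        have q4 := q1 n0
        calc ∑ l, FR.KE e n0 A θ i j l * θ l c
            = algebraMap ℝ 𝒜 (1 / 2) * (∑ l, (∑ m, FR.gi A l m
                * (e i (FR.g θ j m) + e j (FR.g θ i m) - e m (FR.g θ i j))) * θ l c)
              + (∑ l, (∑ m, FR.gi A l m * n0 m) * θ l c) * FR.g θ i j
              - ∑ l, n0 j * (if i = l then 1 else 0) * θ l c := by
              rw [mul_sum, sum_mul, ← sum_add_distrib, ← sum_sub_distrib]
              refine sum_congr rfl fun l _ => ?_
              rw [FR.KE, Algebra.smul_def]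
              ring
          _ = ∑ m, A c m * KL e θ n0 i j m := by
              rw [q2, q3, q4, theta_eq hF i c, mul_sum, mul_sum, sum_mul, ← sum_add_distrib,
                ← sum_sub_distrib]
              refine sum_congr rfl fun l _ => ?_
              rw [KL]
              ring
      simp only [sum_mul]
      rw [← sum3 (fun i j l => A a i * A b j * FR.KE e n0 A θ i j l * θ l c)]
      refine sum_congr rfl fun i _ => sum_congr rfl fun j _ => ?_
      have e1 := e0 i j
      calc ∑ l, A a i * A b j * FR.KE e n0 A θ i j l * θ l c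
          = A a i * A b j * ∑ l, FR.KE e n0 A θ i j l * θ l c := by
            rw [mul_sum]
            exact sum_congr rfl fun l _ => by ring
        _ = ∑ k, A a i * A b j * A c k * KL e θ n0 i j k := by
            rw [e1, mul_sum]
            exact sum_congr rfl fun l _ => by ring
    show X l = _
    have h2 : ∑ c, FR.Gam e n0 A θ a b c * A c l = ∑ k, X k * ∑ c, θ k c * A c l := by
      simp only [← h1, sum_mul, mul_sum]
      rw [sum_comm]
      exact sum_congr rfl fun k _ => sum_congr rfl fun j _ => by ring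
    rw [h2]
    simp only [hF.tA]
    simp
  · have hg : FR.g θ j i = FR.g θ i j := g_symm θ j i
    have hm : ∑ m, FR.gi A k m * (e i (FR.g θ j m) + e j (FR.g θ i m) - e m (FR.g θ i j))
        = ∑ m, FR.gi A k m * (e j (FR.g θ i m) + e i (FR.g θ j m) - e m (FR.g θ i j)) :=
      sum_congr rfl fun m _ => by ring
    simp only [FR.KE]
    rw [hg, hm]
    ring

end Pool.Agent.Helper47.RFn
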